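import Mathlib

set_option autoImplicit false

/-!
# Sums of Jacobi symbols over initial segments

`psi a n` is the Jacobi symbol `(a/n)` for odd `n` and `0` for even `n`. For a non-square `a` the
sums over initial segments are bounded by the period `4 |a|`.
-/

namespace Pool.Agent.Helper70.TW

open Finset

/-- `(a / n)` for odd `n`, and `0` for even `n`. -/
def psi (a : ℤ) (n : ℕ) : ℤ := if Odd n then jacobiSym a n else 0

theorem psi_odd {a : ℤ} {n : ℕ} (h : Odd n) : psi a n = jacobiSym a n := if_pos h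

theorem psi_even {a : ℤ} {n : ℕ} (h : ¬ Odd n) : psi a n = 0 := if_neg h

theorem psi_mul_left (a b : ℤ) (n : ℕ) : psi (a * b) n = psi a n * psi b n := by
  by_cases h : Odd n
  · rw [psi_odd h, psi_odd h, psi_odd h, jacobiSym.mul_left]
  · rw [psi_even h, psi_even h, zero_mul]

theorem psi_mul_right (a : ℤ) (m n : ℕ) : psi a (m * n) = psi a m * psi a n := by
  by_cases hm : Odd m
  · by_cases hn : Odd n
    · rw [psi_odd hm, psi_odd hn, psi_odd (hm.mul hn)]
      refine jacobiSym.mul_right' a ?_ ?_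
      · rintro rfl; exact absurd hm (by decide)
      · rintro rfl; exact absurd hn (by decide)
    · have h : ¬ Odd (m * n) := fun h => hn (Nat.odd_mul.1 h).2
      rw [psi_even h, psi_even hn, mul_zero]
  · have h : ¬ Odd (m * n) := fun h => hm (Nat.odd_mul.1 h).1
    rw [psi_even h, psi_even hm, zero_mul]

theorem psi_abs_le (a : ℤ) (n : ℕ) : |psi a n| ≤ 1 := by
  by_cases h : Odd n
  · rw [psi_odd h]
    rcases jacobiSym.trichotomy a n with h | h | h <;> rw [h] <;> decide
  · rw [psi_even h]; decide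

theorem psi_add_period (a : ℤ) (n : ℕ) : psi a (4 * a.natAbs + n) = psi a n := by
  by_cases h : Odd n
  · have h2 : Odd (4 * a.natAbs + n) := by
      rw [Nat.odd_iff] at h ⊢
      omega
    rw [psi_odd h, psi_odd h2, jacobiSym.mod_right a h2, jacobiSym.mod_right a h,
      Nat.add_mod_left]
  · have h2 : ¬ Odd (4 * a.natAbs + n) := by
      rw [Nat.odd_iff] at h ⊢
      omega
    rw [psi_even h, psi_even h2]

theorem psi_mod (a : ℤ) (n : ℕ) : psi a (n % (4 * a.natAbs)) = psi a n := by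
  have key : ∀ k m : ℕ, psi a (4 * a.natAbs * k + m) = psi a m := by
    intro k
    induction k with
    | zero => intro m; simp
    | succ k ih =>
      intro m
      have : 4 * a.natAbs * (k + 1) + m = 4 * a.natAbs + (4 * a.natAbs * k + m) := by ring
      rw [this, psi_add_period, ih]
  conv_rhs => rw [← Nat.div_add_mod n (4 * a.natAbs)]
  rw [key]

/-- Existence of `n` with `(a/n) = -1` for non-square positive `a`. -/
theorem exists_neg_pos (a : ℕ) (ha : ¬ IsSquare a) :
    ∃ n : ℕ, Odd n ∧ jacobiSym (a : ℤ) n = -1 := by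
  have ha0 : a ≠ 0 := by rintro rfl; exact ha ⟨0, rfl⟩
  obtain ⟨c, m, hcm, hc⟩ := Nat.sq_mul_squarefree a
  have hc1 : c ≠ 1 := by
    rintro rfl
    exact ha ⟨m, by rw [← hcm]; ring⟩
  obtain ⟨q, hq, c', rfl⟩ := Nat.exists_prime_and_dvd hc1
  have hm0 : m ≠ 0 := by
    rintro rfl
    apply ha0; rw [← hcm]; ring
  obtain ⟨e, m', hm', hmm⟩ := Nat.exists_eq_pow_mul_and_not_dvd hm0 q hq.ne_one
  have hqc : ¬ q ∣ c' := by
    intro h
    obtain ⟨d, rfl⟩ := h
    have := hc q ⟨d, by ring⟩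
    exact hq.one_lt.ne' (Nat.isUnit_iff.1 this)
  set b : ℕ := c' * m' ^ 2 with hb
  have hab : a = q ^ (2 * e + 1) * b := by
    rw [← hcm, hmm, hb]; ring
  have hqb : Nat.Coprime q b := by
    rw [Nat.Prime.coprime_iff_not_dvd hq, hb]
    intro h
    rcases hq.dvd_mul.1 h with h | h
    · exact hqc h
    · exact hm' (hq.dvd_of_dvd_pow h)
  have hb0 : 0 < b := by
    rcases Nat.eq_zero_or_pos b with h | h
    · rw [h, mul_zero] at hab; exact absurd hab ha0
    · exact h
  -- the symbol `(b/n)` is one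
  have hbn : ∀ n : ℕ, Odd n → n ≡ 1 [MOD 4 * b] → jacobiSym (b : ℤ) n = 1 := by
    intro n hn h
    rw [jacobiSym.mod_right' b hn, h]
    have : 1 % (4 * b) = 1 := Nat.mod_eq_of_lt (by omega)
    rw [this, jacobiSym.one_right]
  have hfin : ∀ n : ℕ, Odd n → n ≡ 1 [MOD 4 * b] → jacobiSym (q : ℤ) n = -1 →
      jacobiSym (a : ℤ) n = -1 := by
    intro n hn h1 h2
    rw [hab]
    push_cast
    rw [jacobiSym.mul_left, jacobiSym.pow_left, h2, hbn n hn h1, mul_one]
    exact Odd.neg_one_pow ⟨e, rfl⟩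
  rcases hq.eq_two_or_odd' with h2 | hodd
  · subst h2
    have hcop : Nat.Coprime 8 b := by
      have : (8 : ℕ) = 2 ^ 3 := by norm_num
      rw [this]; exact hqb.pow_left 3
    obtain ⟨n, hn1, hn2⟩ := Nat.chineseRemainder hcop 5 1
    have hno : Odd n := by
      have h := hn1
      rw [Nat.ModEq] at h
      rw [Nat.odd_iff]; omega
    have hn4 : n ≡ 1 [MOD 4] := by
      have h := hn1
      rw [Nat.ModEq] at h ⊢; omega
    have hcop4 : Nat.Coprime 4 b := by
      have : (4 : ℕ) = 2 ^ 2 := by norm_num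
      rw [this]; exact hqb.pow_left 2
    refine ⟨n, hno, hfin n hno ((Nat.modEq_and_modEq_iff_modEq_mul hcop4).1 ⟨hn4, hn2⟩) ?_⟩
    have h := jacobiSym.at_two hno
    have h5 : ((n : ℕ) : ZMod 8) = ((5 : ℕ) : ZMod 8) := (ZMod.natCast_eq_natCast_iff _ _ _).2 hn1
    rw [h5] at h
    have h6 : (ZMod.χ₈ ((5 : ℕ) : ZMod 8) : ℤ) = -1 := by decide
    rw [h6] at h
    exact_mod_cast h
  · have hF : Fact q.Prime := ⟨hq⟩
    have hq2 : ringChar (ZMod q) ≠ 2 := by
      rw [ZMod.ringChar_zmod_n]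
      rintro rfl
      exact absurd hodd (by decide)
    obtain ⟨r, hr⟩ := FiniteField.exists_nonsquare (F := ZMod q) hq2
    have hcop : Nat.Coprime (4 * b) q := by
      refine Nat.Coprime.mul_left ?_ hqb.symm
      have : (4 : ℕ) = 2 ^ 2 := by norm_num
      rw [this]
      refine Nat.Coprime.pow_left 2 ?_
      rw [Nat.coprime_two_left]
      exact hodd
    obtain ⟨n, hn1, hn2⟩ := Nat.chineseRemainder hcop 1 r.val
    have hn4 : n % 4 = 1 := by
      have h : n ≡ 1 [MOD 4] := hn1.of_mul_right b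
      exact h
    have hno : Odd n := by
      rw [Nat.odd_iff]; omega
    refine ⟨n, hno, hfin n hno hn1 ?_⟩
    rw [← jacobiSym.quadratic_reciprocity_one_mod_four hn4 hodd,
      ← jacobiSym.legendreSym.to_jacobiSym, legendreSym.eq_neg_one_iff]
    have : ((n : ℤ) : ZMod q) = r := by
      have h := (ZMod.natCast_eq_natCast_iff _ _ _).2 hn2
      rw [ZMod.natCast_val, ZMod.cast_id] at h
      exact_mod_cast h
    rw [this]
    exact hr

theorem exists_neg (a : ℤ) (ha : ¬ IsSquare a) : ∃ n : ℕ, Odd n ∧ jacobiSym a n = -1 := by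
  rcases le_or_gt 0 a with h | h
  · obtain ⟨b, rfl⟩ := Int.eq_ofNat_of_zero_le h
    refine exists_neg_pos b ?_
    rintro ⟨r, hr⟩
    exact ha ⟨(r : ℤ), by rw [hr]; push_cast; ring⟩
  · obtain ⟨A, hA⟩ := Int.exists_eq_neg_ofNat h.le
    have hA0 : 0 < A := by
      rcases Nat.eq_zero_or_pos A with h0 | h0
      · rw [h0] at hA; simp at hA; omega
      · exact h0
    have hodd : Odd (4 * A - 1) := by rw [Nat.odd_iff]; omega
    refine ⟨4 * A - 1, hodd, ?_⟩
    rw [hA, jacobiSym.neg _ hodd]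
    have h3 : jacobiSym ((4 * A : ℕ) : ℤ) (4 * A - 1) = 1 := by
      have h4 : jacobiSym ((4 * A : ℕ) : ℤ) (4 * A - 1) = jacobiSym 1 (4 * A - 1) := by
        refine jacobiSym.mod_left' ?_
        have h5 : ((4 * A : ℕ) : ℤ) = 1 + ((4 * A - 1 : ℕ) : ℤ) := by
          rw [Nat.cast_sub (by omega)]
          push_cast
          ring
        rw [h5, Int.add_emod_right]
      rw [h4, jacobiSym.one_left]
    rw [Nat.cast_mul, jacobiSym.mul_left] at h3
    have h4 : jacobiSym ((4 : ℕ) : ℤ) (4 * A - 1) = 1 := jacobiSym.at_four hodd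
    rw [h4, one_mul] at h3
    rw [h3, mul_one]
    exact ZMod.χ₄_nat_three_mod_four (by omega)

/-- The sum over a full period vanishes. -/
theorem psi_sum_period (a : ℤ) (ha : ¬ IsSquare a) : ∑ n ∈ range (4 * a.natAbs), psi a n = 0 := by
  have ha0 : a ≠ 0 := by rintro rfl; exact ha ⟨0, rfl⟩
  have hP : 0 < 4 * a.natAbs := by have := Int.natAbs_pos.2 ha0; omega
  set P : ℕ := 4 * a.natAbs with hPdef
  have : NeZero P := ⟨hP.ne'⟩
  obtain ⟨n0, hodd, hn0⟩ := exists_neg a ha
  have hcop : Nat.Coprime n0 P := by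
    have h1 : Nat.Coprime n0 4 := by
      have : (4 : ℕ) = 2 ^ 2 := by norm_num
      rw [this]
      exact Nat.Coprime.pow_right 2 (Nat.coprime_two_right.2 hodd)
    have h2 : a.gcd n0 = 1 := by
      by_contra hne
      have hz : n0 ≠ 0 := by rintro rfl; exact absurd hodd (by decide)
      have := jacobiSym.eq_zero_iff.2 ⟨hz, hne⟩
      rw [hn0] at this
      exact absurd this (by decide)
    have h3 : Nat.Coprime n0 a.natAbs := by
      rw [Int.gcd_eq_natAbs, Int.natAbs_natCast] at h2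
      exact Nat.Coprime.symm h2
    exact Nat.Coprime.mul_right h1 h3
  let u0 : (ZMod P)ˣ := ZMod.unitOfCoprime n0 hcop
  let Ψ : ZMod P → ℤ := fun u => psi a u.val
  have hΨ : ∀ n : ℕ, Ψ (n : ZMod P) = psi a n := by
    intro n
    show psi a ((n : ZMod P).val) = psi a n
    rw [ZMod.val_natCast, hPdef, psi_mod]
  have hsum : ∑ n ∈ range P, psi a n = ∑ u : ZMod P, Ψ u := by
    refine Finset.sum_bij (fun n _ => (n : ZMod P)) (fun n _ => mem_univ _) ?_ ?_ ?_
    · intro n hn m hm h
      have h2 := (ZMod.natCast_eq_natCast_iff' n m P).1 h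
      rwa [Nat.mod_eq_of_lt (mem_range.1 hn), Nat.mod_eq_of_lt (mem_range.1 hm)] at h2
    · intro u _
      exact ⟨u.val, mem_range.2 (ZMod.val_lt u), ZMod.natCast_zmod_val u⟩
    · intro n _
      exact (hΨ n).symm
  have hneg : ∀ u : ZMod P, Ψ ((u0 : ZMod P) * u) = - Ψ u := by
    intro u
    have h1 : (u0 : ZMod P) * u = ((n0 * u.val : ℕ) : ZMod P) := by
      push_cast
      rw [ZMod.natCast_zmod_val]
      rfl
    rw [h1, hΨ, psi_mul_right, psi_odd hodd, hn0]
    show _ = - psi a u.val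
    ring
  have hS : ∑ u : ZMod P, Ψ ((u0 : ZMod P) * u) = ∑ u : ZMod P, Ψ u :=
    Equiv.sum_comp (Units.mulLeft u0) Ψ
  rw [hsum]
  simp only [hneg] at hS
  rw [Finset.sum_neg_distrib] at hS
  omega

/-- The sums over initial segments are bounded by the period. -/
theorem psi_sum_le (a : ℤ) (ha : ¬ IsSquare a) (N : ℕ) :
    |∑ n ∈ range N, psi a n| ≤ 4 * a.natAbs := by
  induction N using Nat.strong_induction_on with
  | _ N ih =>
    rcases lt_or_ge N (4 * a.natAbs) with h | h
    · calc |∑ n ∈ range N, psi a n| ≤ ∑ n ∈ range N, |psi a n| := Finset.abs_sum_le_sum_abs _ _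
        _ ≤ ∑ n ∈ range N, 1 := Finset.sum_le_sum fun n _ => psi_abs_le a n
        _ = N := by simp
        _ ≤ 4 * a.natAbs := by exact_mod_cast h.le
    · obtain ⟨M, rfl⟩ := Nat.exists_eq_add_of_le h
      have ha0 : a ≠ 0 := by rintro rfl; exact ha ⟨0, rfl⟩
      have hP : 0 < a.natAbs := Int.natAbs_pos.2 ha0
      rw [Finset.sum_range_add, psi_sum_period a ha, zero_add]
      simp only [psi_add_period]
      exact ih M (by omega)

end Pool.Agent.Helper70.TW
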