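import Pool.Agent.Helper70.TW.Equiv

set_option autoImplicit false

/-!
# The zero-one principle, abstract form
-/

namespace Pool.Agent.Helper70.TW

open Finset Filter Pool.Agent.Helper28.Koblitz

/-- Abstract law: for `x ≥ x₁(η)`, `F D x` is within `η` of `Fb x`, outside a small set. -/
def Law (K C m : ℕ) (F : ℤ → ℕ → ℝ) (Fb : ℕ → ℝ) : Prop :=
  ∀ η : ℝ, 0 < η → ∃ x1 : ℕ, ∀ x0 Y L : ℕ, x1 ≤ x0 → 1 ≤ Y → 1 ≤ L →
    ((sel Y (fun D => ∃ x : ℕ, x0 ≤ x ∧ (x : ℝ) ≤ Real.exp L ∧ η < |F D x - Fb x|)).card : ℝ) ≤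
      C * ((Y : ℝ) / (x0 : ℝ) ^ K + (L : ℝ) ^ m)

theorem sel_mono {Y : ℕ} {P Q : ℤ → Prop} (h : ∀ D ∈ sqf Y, P D → Q D) :
    ((sel Y P).card : ℝ) ≤ ((sel Y Q).card : ℝ) := by
  classical
  have : sel Y P ⊆ sel Y Q := by
    intro D hD
    unfold sel at hD ⊢
    rw [mem_filter] at hD ⊢
    exact ⟨hD.1, h D hD.1 hD.2⟩
  exact_mod_cast Finset.card_le_card this

theorem abs_one_two (C m : ℕ) (F : ℤ → ℕ → ℝ) (Fb : ℕ → ℝ) (hlaw : Law 1 C m F Fb) (ε : ℝ)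
    (hε : 0 < ε) (h : ∃ x2 : ℕ, ∀ x : ℕ, x2 ≤ x → |Fb x| ≤ ε / 2) :
    ∃ x0 Y0 : ℕ, ∀ Y : ℕ, Y0 ≤ Y → ((sel Y (fun D => ∃ x : ℕ, x0 ≤ x ∧
      (x : ℝ) ≤ Real.exp ((Y : ℝ) ^ (1 / (2 * ((m : ℝ) + 1)))) ∧ ¬ |F D x| ≤ ε)).card : ℝ) ≤
      ε * Y := by
  classical
  obtain ⟨x2, hx2⟩ := h
  obtain ⟨x1, hx1⟩ := hlaw (ε / 2) (by positivity)
  set κ : ℝ := 1 / (2 * ((m : ℝ) + 1)) with hκ
  have hκ0 : 0 < κ := by positivity
  set x0 : ℕ := x1 + x2 + ⌈2 * C / ε⌉₊ + 2 with hx0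
  refine ⟨x0, ⌈(2 * C * 2 ^ m / ε) ^ 2⌉₊ + 1, ?_⟩
  intro Y hY
  have hY1 : 1 ≤ Y := by omega
  have hY1' : (1 : ℝ) ≤ Y := by exact_mod_cast hY1
  set L : ℕ := ⌈(Y : ℝ) ^ κ⌉₊ with hL
  have hYκ : 1 ≤ (Y : ℝ) ^ κ := Real.one_le_rpow hY1' hκ0.le
  have hL1 : 1 ≤ L := by
    rw [hL, Nat.one_le_ceil_iff]
    linarith
  have hLup : (L : ℝ) ≤ 2 * (Y : ℝ) ^ κ := by
    have := (Nat.ceil_lt_add_one (by linarith : (0 : ℝ) ≤ (Y : ℝ) ^ κ)).le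
    linarith
  have hLm : (L : ℝ) ^ m ≤ 2 ^ m * √Y := by
    calc (L : ℝ) ^ m ≤ (2 * (Y : ℝ) ^ κ) ^ m := pow_le_pow_left₀ (Nat.cast_nonneg _) hLup m
      _ = 2 ^ m * (Y : ℝ) ^ (κ * m) := by
          rw [mul_pow, ← Real.rpow_natCast ((Y : ℝ) ^ κ), ← Real.rpow_mul (by linarith)]
      _ ≤ 2 ^ m * √Y := by
          refine mul_le_mul_of_nonneg_left ?_ (by positivity)
          rw [Real.sqrt_eq_rpow]
          refine Real.rpow_le_rpow_of_exponent_le hY1' ?_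
          rw [hκ, div_mul_eq_mul_div, one_mul, div_le_div_iff₀ (by positivity) (by norm_num)]
          linarith
  have hb := hx1 x0 Y L (by omega) hY1 hL1
  rw [pow_one] at hb
  refine (sel_mono (Q := fun D => ∃ x : ℕ, x0 ≤ x ∧ (x : ℝ) ≤ Real.exp L ∧
    ε / 2 < |F D x - Fb x|) ?_).trans (hb.trans ?_)
  · rintro D - ⟨x, h3, h4, h5⟩
    refine ⟨x, h3, h4.trans (Real.exp_le_exp.2 (Nat.le_ceil _)), ?_⟩
    by_contra hcon
    rw [not_lt] at hcon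
    apply h5
    have h6 := hx2 x (by omega)
    have h7 : F D x = (F D x - Fb x) + Fb x := by ring
    rw [h7]
    exact (abs_add_le _ _).trans (by linarith)
  · have hC0 : (0 : ℝ) ≤ C := Nat.cast_nonneg _
    have hs0 : 2 * C / ε ≤ (x0 : ℝ) :=
      (Nat.le_ceil _).trans (by exact_mod_cast (by omega : ⌈2 * (C : ℝ) / ε⌉₊ ≤ x0))
    have hx0pos : (0 : ℝ) < (x0 : ℝ) := by exact_mod_cast (by omega : 0 < x0)
    have hf : (C : ℝ) * ((Y : ℝ) / x0) ≤ ε / 2 * Y := by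
      rw [mul_div_assoc', div_le_iff₀ hx0pos]
      rw [div_le_iff₀ hε] at hs0
      nlinarith
    have hs1 : 2 * C * 2 ^ m / ε ≤ √Y := by
      refine Real.le_sqrt_of_sq_le ?_
      refine (Nat.le_ceil _).trans ?_
      exact_mod_cast (by omega : ⌈(2 * (C : ℝ) * 2 ^ m / ε) ^ 2⌉₊ ≤ Y)
    have hsq : √(Y : ℝ) * √Y = Y := Real.mul_self_sqrt (by linarith)
    have hg : (C : ℝ) * (L : ℝ) ^ m ≤ ε / 2 * Y := by
      have h2 : (C : ℝ) * (L : ℝ) ^ m ≤ C * (2 ^ m * √Y) := mul_le_mul_of_nonneg_left hLm hC0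
      rw [div_le_iff₀ hε] at hs1
      have h3 : (2 * (C : ℝ) * 2 ^ m) * √Y ≤ (√Y * ε) * √Y :=
        mul_le_mul_of_nonneg_right hs1 (Real.sqrt_nonneg _)
      nlinarith
    rw [mul_add]
    linarith

theorem abs_two_three (B K : ℕ) (hB : 1 ≤ B) (hsqf : ∀ Y : ℕ, (Y : ℝ) / 2 ≤ ((sqf Y).card : ℝ))
    (κ : ℝ) (hκ : 0 < κ) (F : ℤ → ℕ → ℝ) (ε ε' : ℝ) (hε' : ε' ≤ ε) (hε'4 : ε' ≤ 1 / 4)
    (h : ∃ x0 Y0 : ℕ, ∀ Y : ℕ, Y0 ≤ Y → ((sel Y (fun D => ∃ x : ℕ, x0 ≤ x ∧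
      (x : ℝ) ≤ Real.exp ((Y : ℝ) ^ κ) ∧ ¬ |F D x| ≤ ε')).card : ℝ) ≤ ε' * Y) :
    ∃ x0 : ℕ, ∀ x : ℕ, x0 ≤ x →
      (Real.log x) ^ K ≤ ((sel (x ^ B) (fun D => |F D x| ≤ ε)).card : ℝ) := by
  classical
  obtain ⟨x0, Y0, h⟩ := h
  obtain ⟨x1, hx1⟩ := ev_log 4 K
  obtain ⟨x2, hx2⟩ := Filter.eventually_atTop.1 (tendsto_natCast_atTop_atTop.eventually
    ((isLittleO_log_rpow_atTop hκ).def (c := 1) (by norm_num)))
  refine ⟨x0 + Y0 + x1 + x2 + 3, fun x hx => ?_⟩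
  have hxR : (1 : ℝ) < x := by exact_mod_cast (by omega : 1 < x)
  have hlog := Real.log_pos hxR
  have h1 := h x (by omega)
  have h2 := hsqf x
  have h3 := hx1 x (by omega)
  have h4 := hx2 x (by omega)
  rw [Real.norm_eq_abs, Real.norm_eq_abs, one_mul, abs_of_pos hlog,
    abs_of_nonneg (by positivity)] at h4
  have hxle : (x : ℝ) ≤ Real.exp ((x : ℝ) ^ κ) := by
    calc (x : ℝ) = Real.exp (Real.log x) := (Real.exp_log (by linarith)).symm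
      _ ≤ _ := Real.exp_le_exp.2 h4
  have hsub : sqf x ⊆ sel (x ^ B) (fun D => |F D x| ≤ ε) ∪
      sel x (fun D => ∃ y : ℕ, x0 ≤ y ∧ (y : ℝ) ≤ Real.exp ((x : ℝ) ^ κ) ∧ ¬ |F D y| ≤ ε') := by
    intro D hD
    unfold sel
    rw [mem_union, mem_filter, mem_filter]
    by_cases hn : |F D x| ≤ ε'
    · left
      refine ⟨?_, hn.trans hε'⟩
      unfold sqf at hD ⊢
      rw [mem_filter, mem_Icc] at hD ⊢
      have hxB : (x : ℤ) ≤ ((x ^ B : ℕ) : ℤ) := by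
        exact_mod_cast Nat.le_self_pow (by omega) x
      exact ⟨⟨by linarith [hD.1.1], by linarith [hD.1.2]⟩, hD.2⟩
    · right
      exact ⟨hD, x, by omega, hxle, hn⟩
  have h5 := (Finset.card_le_card hsub).trans (Finset.card_union_le _ _)
  have h6 : ((sqf x).card : ℝ) ≤ ((sel (x ^ B) (fun D => |F D x| ≤ ε)).card : ℝ) +
      ((sel x (fun D => ∃ y : ℕ, x0 ≤ y ∧ (y : ℝ) ≤ Real.exp ((x : ℝ) ^ κ) ∧
        ¬ |F D y| ≤ ε')).card : ℝ) := by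
    exact_mod_cast h5
  have h7 : ε' * (x : ℝ) ≤ 1 / 4 * x := mul_le_mul_of_nonneg_right hε'4 (Nat.cast_nonneg _)
  linarith

theorem abs_three_one (B C m : ℕ) (F : ℤ → ℕ → ℝ) (Fb : ℕ → ℝ) (hlaw : Law B C m F Fb)
    (ε : ℝ) (hε : 0 < ε) (h : ∃ x0 : ℕ, ∀ x : ℕ, x0 ≤ x →
      (Real.log x) ^ (m + 1) ≤ ((sel (x ^ B) (fun D => |F D x| ≤ ε / 2)).card : ℝ)) :
    ∃ x0 : ℕ, ∀ x : ℕ, x0 ≤ x → |Fb x| ≤ ε := by
  classical
  obtain ⟨x1, hx1⟩ := h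
  obtain ⟨x2, hx2⟩ := hlaw (ε / 2) (by positivity)
  obtain ⟨x3, hx3, hx3'⟩ := exists_log_ge (C * (1 + 2 ^ m) + 1)
  refine ⟨x1 + x2 + x3, fun x hx => ?_⟩
  have hxge2 : 2 ≤ x := by omega
  have hx1' : (1 : ℝ) < x := by exact_mod_cast (by omega : 1 < x)
  have hlog2 : C * (1 + 2 ^ m) + 1 ≤ Real.log x := hx3' x (by omega)
  have hC0 : (0 : ℝ) ≤ C := Nat.cast_nonneg _
  have hlogge1 : 1 ≤ Real.log x := by
    have : (0 : ℝ) ≤ C * (1 + 2 ^ m) := by positivity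
    linarith
  have hYη := hx1 x (by omega)
  have hY1 : 1 ≤ x ^ B := Nat.one_le_pow _ _ (by omega)
  set L : ℕ := ⌈Real.log x⌉₊ with hL
  have hL1 : 1 ≤ L := by
    rw [hL, Nat.one_le_ceil_iff]
    linarith
  have hLup : (L : ℝ) ≤ 2 * Real.log x := by
    have := (Nat.ceil_lt_add_one (by linarith : (0 : ℝ) ≤ Real.log x)).le
    linarith
  have hb := hx2 x (x ^ B) L (by omega) hY1 hL1
  have hsmall : (C : ℝ) * (((x ^ B : ℕ) : ℝ) / (x : ℝ) ^ B + (L : ℝ) ^ m) <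
      (Real.log x) ^ (m + 1) := by
    have e1 : ((x ^ B : ℕ) : ℝ) / (x : ℝ) ^ B = 1 := by
      push_cast
      exact div_self (by positivity)
    rw [e1]
    have h1 : (L : ℝ) ^ m ≤ 2 ^ m * (Real.log x) ^ m := by
      rw [← mul_pow]
      exact pow_le_pow_left₀ (Nat.cast_nonneg _) hLup m
    have h2 : (1 : ℝ) ≤ (Real.log x) ^ m := one_le_pow₀ hlogge1
    have h3 : (C : ℝ) * (1 + (L : ℝ) ^ m) ≤ C * ((1 + 2 ^ m) * (Real.log x) ^ m) := by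
      refine mul_le_mul_of_nonneg_left ?_ hC0
      linarith
    have h4 : (C * (1 + 2 ^ m) : ℝ) * (Real.log x) ^ m < (Real.log x) ^ (m + 1) := by
      rw [pow_succ, mul_comm]
      exact mul_lt_mul_of_pos_left (by linarith) (by linarith)
    calc (C : ℝ) * (1 + (L : ℝ) ^ m) ≤ C * ((1 + 2 ^ m) * (Real.log x) ^ m) := h3
      _ = (C * (1 + 2 ^ m) : ℝ) * (Real.log x) ^ m := by ring
      _ < _ := h4
  have hex : ∃ D ∈ sel (x ^ B) (fun D => |F D x| ≤ ε / 2),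
      D ∉ sel (x ^ B) (fun D => ∃ y : ℕ, x ≤ y ∧ (y : ℝ) ≤ Real.exp L ∧
        ε / 2 < |F D y - Fb y|) := by
    by_contra hcon
    push Not at hcon
    have h2 : ((sel (x ^ B) (fun D => |F D x| ≤ ε / 2)).card : ℝ) ≤
        ((sel (x ^ B) (fun D => ∃ y : ℕ, x ≤ y ∧ (y : ℝ) ≤ Real.exp L ∧
        ε / 2 < |F D y - Fb y|)).card : ℝ) := by exact_mod_cast Finset.card_le_card hcon
    linarith
  obtain ⟨D, hD, hDb⟩ := hex
  unfold sel at hD hDb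
  rw [mem_filter] at hD
  have h1 : |F D x - Fb x| ≤ ε / 2 := by
    by_contra hcon
    rw [not_le] at hcon
    apply hDb
    rw [mem_filter]
    refine ⟨hD.1, x, le_rfl, ?_, hcon⟩
    have h2 : (x : ℝ) = Real.exp (Real.log x) := (Real.exp_log (by linarith)).symm
    rw [h2]
    exact Real.exp_le_exp.2 (Nat.le_ceil _)
  have h4 : Fb x = F D x + -(F D x - Fb x) := by ring
  rw [h4]
  refine (abs_add_le _ _).trans ?_
  rw [abs_neg]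
  linarith [hD.2]

end Pool.Agent.Helper70.TW
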