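import Pool.Agent.Helper80.TL.Final

set_option autoImplicit false

/-!
# The twist law at one scale and at all scales
-/

namespace Pool.Agent.Helper70.TW

open Finset Filter Pool.Agent.Helper28.Koblitz

theorem one_scale (A B : ℕ) : ∃ m : ℕ, ∀ (E : WeierstrassCurve ℤ) (x : ℕ), 3 ≤ x →
    ((sel (x ^ B) (fun D => ∃ t : ℕ, (x : ℝ) / (Real.log x) ^ A <
      |(koblitzCount (quadTwist E D) t x : ℝ) - meanCount E t x|)).card : ℝ) ≤
      (Real.log x) ^ m := by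
  classical
  obtain ⟨C, m0, h⟩ := Pool.Agent.Helper80.TL.count_law A B
  have hl3 : (1 : ℝ) < Real.log 3 := by
    rw [Real.lt_log_iff_exp_lt (by norm_num)]
    have := Real.exp_one_lt_d9
    linarith
  obtain ⟨j, hj⟩ := pow_unbounded_of_one_lt (|C| * (1 + 2 ^ m0)) hl3
  refine ⟨m0 + j, fun E x hx => ?_⟩
  have hx3 : (3 : ℝ) ≤ x := by exact_mod_cast hx
  have hx0 : (0 : ℝ) < x := by linarith
  have hlx : Real.log 3 ≤ Real.log x := Real.log_le_log (by norm_num) hx3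
  have hlx1 : 1 < Real.log x := hl3.trans_le hlx
  set L : ℕ := ⌈Real.log x⌉₊ with hL
  have hL1 : 1 ≤ L := by
    rw [hL, Nat.one_le_ceil_iff]
    linarith
  have hLup : (L : ℝ) ≤ 2 * Real.log x := by
    have := (Nat.ceil_lt_add_one (by linarith : (0 : ℝ) ≤ Real.log x)).le
    linarith
  have hb := h E x (x ^ B) L (by omega) (Nat.one_le_pow _ _ (by omega)) hL1
  have hsub : sel (x ^ B) (fun D => ∃ t : ℕ, (x : ℝ) / (Real.log x) ^ A <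
      |(koblitzCount (quadTwist E D) t x : ℝ) - meanCount E t x|) ⊆ badUpTo E A x (x ^ B) L := by
    intro D hD
    unfold sel sqf at hD
    rw [mem_filter, mem_filter] at hD
    obtain ⟨⟨h1, h2⟩, t, h3⟩ := hD
    unfold badUpTo
    rw [mem_filter]
    refine ⟨h1, h2, t, x, le_rfl, ?_, h3⟩
    rw [← Real.log_le_iff_le_exp hx0]
    exact Nat.le_ceil _
  have h0 : ((sel (x ^ B) (fun D => ∃ t : ℕ, (x : ℝ) / (Real.log x) ^ A <
      |(koblitzCount (quadTwist E D) t x : ℝ) - meanCount E t x|)).card : ℝ) ≤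
      ((badUpTo E A x (x ^ B) L).card : ℝ) := by
    exact_mod_cast Finset.card_le_card hsub
  have h1 : (((x ^ B : ℕ) : ℝ) / (x : ℝ) ^ B + (L : ℝ) ^ m0) ≤
      (1 + 2 ^ m0) * (Real.log x) ^ m0 := by
    have h2 : ((x ^ B : ℕ) : ℝ) / (x : ℝ) ^ B = 1 := by
      push_cast
      exact div_self (by positivity)
    have h3 : (L : ℝ) ^ m0 ≤ 2 ^ m0 * (Real.log x) ^ m0 := by
      rw [← mul_pow]
      exact pow_le_pow_left₀ (Nat.cast_nonneg _) hLup m0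
    have h4 : (1 : ℝ) ≤ (Real.log x) ^ m0 := one_le_pow₀ hlx1.le
    rw [h2, add_mul, one_mul]
    linarith
  have h5 : (0 : ℝ) ≤ ((x ^ B : ℕ) : ℝ) / (x : ℝ) ^ B + (L : ℝ) ^ m0 := by positivity
  have hlog0 : (0 : ℝ) ≤ (Real.log x) ^ m0 := by positivity
  calc ((sel (x ^ B) (fun D => ∃ t : ℕ, (x : ℝ) / (Real.log x) ^ A <
      |(koblitzCount (quadTwist E D) t x : ℝ) - meanCount E t x|)).card : ℝ)
      ≤ C * (((x ^ B : ℕ) : ℝ) / (x : ℝ) ^ B + (L : ℝ) ^ m0) := h0.trans hb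
    _ ≤ |C| * (((x ^ B : ℕ) : ℝ) / (x : ℝ) ^ B + (L : ℝ) ^ m0) :=
        mul_le_mul_of_nonneg_right (le_abs_self C) h5
    _ ≤ |C| * ((1 + 2 ^ m0) * (Real.log x) ^ m0) :=
        mul_le_mul_of_nonneg_left h1 (abs_nonneg C)
    _ = |C| * (1 + 2 ^ m0) * (Real.log x) ^ m0 := by ring
    _ ≤ (Real.log 3) ^ j * (Real.log x) ^ m0 := mul_le_mul_of_nonneg_right hj.le hlog0
    _ ≤ (Real.log x) ^ j * (Real.log x) ^ m0 :=
        mul_le_mul_of_nonneg_right (pow_le_pow_left₀ (by linarith) hlx j) hlog0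
    _ = (Real.log x) ^ (m0 + j) := by rw [pow_add, mul_comm]

theorem all_scales (A : ℕ) : ∃ κ : ℝ, 0 < κ ∧ ∀ ε : ℝ, 0 < ε → ∃ x0 Y0 : ℕ,
    ∀ (E : WeierstrassCurve ℤ) (Y : ℕ), Y0 ≤ Y →
      ((sel Y (fun D => ∃ t x : ℕ, x0 ≤ x ∧ (x : ℝ) ≤ Real.exp ((Y : ℝ) ^ κ) ∧
        (x : ℝ) / (Real.log x) ^ A <
          |(koblitzCount (quadTwist E D) t x : ℝ) - meanCount E t x|)).card : ℝ) ≤ ε * Y := by
  classical
  obtain ⟨C, m, h⟩ := Pool.Agent.Helper80.TL.count_law A 1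
  have hκ0 : (0 : ℝ) < 1 / (2 * ((m : ℝ) + 1)) := by positivity
  refine ⟨1 / (2 * ((m : ℝ) + 1)), hκ0, fun ε hε => ?_⟩
  set κ : ℝ := 1 / (2 * ((m : ℝ) + 1)) with hκ
  set c : ℝ := |C| with hc
  have hc0 : 0 ≤ c := abs_nonneg C
  set x0 : ℕ := ⌈2 * c / ε⌉₊ + 2 with hx0
  refine ⟨x0, ⌈(2 * c * 2 ^ m / ε) ^ 2⌉₊ + 1, fun E Y hY => ?_⟩
  have hY1 : 1 ≤ Y := by omega
  have hY1' : (1 : ℝ) ≤ Y := by exact_mod_cast hY1
  set L : ℕ := ⌈(Y : ℝ) ^ κ⌉₊ with hL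
  have hYκ : 1 ≤ (Y : ℝ) ^ κ := Real.one_le_rpow hY1' hκ0.le
  have hL1 : 1 ≤ L := by
    rw [hL, Nat.one_le_ceil_iff]
    linarith
  have hLup : (L : ℝ) ≤ 2 * (Y : ℝ) ^ κ := by
    have := (Nat.ceil_lt_add_one (by linarith : (0 : ℝ) ≤ (Y : ℝ) ^ κ)).le
    linarith
  have hLm : (L : ℝ) ^ m ≤ 2 ^ m * √Y := by
    calc (L : ℝ) ^ m ≤ (2 * (Y : ℝ) ^ κ) ^ m := pow_le_pow_left₀ (Nat.cast_nonneg _) hLup m
      _ = 2 ^ m * (Y : ℝ) ^ (κ * m) := by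
          rw [mul_pow, ← Real.rpow_natCast ((Y : ℝ) ^ κ), ← Real.rpow_mul (by linarith)]
      _ ≤ 2 ^ m * √Y := by
          refine mul_le_mul_of_nonneg_left ?_ (by positivity)
          rw [Real.sqrt_eq_rpow]
          refine Real.rpow_le_rpow_of_exponent_le hY1' ?_
          rw [hκ, div_mul_eq_mul_div, one_mul, div_le_div_iff₀ (by positivity) (by norm_num)]
          linarith
  have hb := h E x0 Y L (by omega) hY1 hL1
  rw [pow_one] at hb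
  have hsub : sel Y (fun D => ∃ t x : ℕ, x0 ≤ x ∧ (x : ℝ) ≤ Real.exp ((Y : ℝ) ^ κ) ∧
        (x : ℝ) / (Real.log x) ^ A <
          |(koblitzCount (quadTwist E D) t x : ℝ) - meanCount E t x|) ⊆ badUpTo E A x0 Y L := by
    intro D hD
    unfold sel sqf at hD
    rw [mem_filter, mem_filter] at hD
    obtain ⟨⟨h1, h2⟩, t, x, h3, h4, h5⟩ := hD
    unfold badUpTo
    rw [mem_filter]
    exact ⟨h1, h2, t, x, h3, h4.trans (Real.exp_le_exp.2 (Nat.le_ceil _)), h5⟩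
  have h0 : ((sel Y (fun D => ∃ t x : ℕ, x0 ≤ x ∧ (x : ℝ) ≤ Real.exp ((Y : ℝ) ^ κ) ∧
        (x : ℝ) / (Real.log x) ^ A <
          |(koblitzCount (quadTwist E D) t x : ℝ) - meanCount E t x|)).card : ℝ) ≤
      ((badUpTo E A x0 Y L).card : ℝ) := by
    exact_mod_cast Finset.card_le_card hsub
  refine h0.trans (hb.trans ?_)
  have hnn : (0 : ℝ) ≤ (Y : ℝ) / x0 + (L : ℝ) ^ m := by positivity
  refine (mul_le_mul_of_nonneg_right (le_abs_self C) hnn).trans ?_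
  have hs0 : 2 * c / ε ≤ (x0 : ℝ) :=
    (Nat.le_ceil _).trans (by exact_mod_cast (by omega : ⌈2 * c / ε⌉₊ ≤ x0))
  have hx0pos : (0 : ℝ) < (x0 : ℝ) := by exact_mod_cast (by omega : 0 < x0)
  have hf : c * ((Y : ℝ) / x0) ≤ ε / 2 * Y := by
    rw [mul_div_assoc', div_le_iff₀ hx0pos]
    rw [div_le_iff₀ hε] at hs0
    nlinarith
  have hs1 : 2 * c * 2 ^ m / ε ≤ √Y := by
    refine Real.le_sqrt_of_sq_le ?_
    refine (Nat.le_ceil _).trans ?_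
    exact_mod_cast (by omega : ⌈(2 * c * 2 ^ m / ε) ^ 2⌉₊ ≤ Y)
  have hsq : √(Y : ℝ) * √Y = Y := Real.mul_self_sqrt (by linarith)
  have hg : c * (L : ℝ) ^ m ≤ ε / 2 * Y := by
    have h2 : c * (L : ℝ) ^ m ≤ c * (2 ^ m * √Y) := mul_le_mul_of_nonneg_left hLm hc0
    rw [div_le_iff₀ hε] at hs1
    have h3 : (2 * c * 2 ^ m) * √Y ≤ (√Y * ε) * √Y :=
      mul_le_mul_of_nonneg_right hs1 (Real.sqrt_nonneg _)
    nlinarith
  rw [← hc, mul_add]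
  linarith

theorem zero_one' : ∃ κ : ℝ, 0 < κ ∧ ∀ B : ℕ, 1 ≤ B → ∃ K : ℕ,
    ∀ (E : WeierstrassCurve ℤ) (t : ℕ), AlmostAllRefined κ E t ↔ SomeRefined B K E t := by
  classical
  have h2 : ∀ K, FreqLaw 1 K := by
    intro K
    obtain ⟨C, m, -, h⟩ := Pool.Agent.Helper80.TL.freq_law 1 K
    exact ⟨C, m, fun E t M x0 Y L hx0 hY hL => h E t M x0 Y L (by omega) hY hL⟩
  have hsqf : ∀ Y : ℕ, (Y : ℝ) / 2 ≤ ((sqf Y).card : ℝ) := by
    intro Y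
    unfold sqf
    exact Pool.Agent.Helper16.TL.sqf_count Y
  obtain ⟨κ, hκ, h⟩ := refined_equiv hsqf (fun K => Pool.Agent.Helper80.TL.count_law 3 K) h2
  refine ⟨κ, hκ, fun B hB => ?_⟩
  obtain ⟨K, h⟩ := h B hB
  exact ⟨K, fun E t => (h E t).1.symm.trans (h E t).2⟩

end Pool.Agent.Helper70.TW
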