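import Pool.Agent.Helper28.Koblitz.Defs

set_option autoImplicit false

/-!
# The family of quadratic twists: definitions
-/

namespace Pool.Agent.Helper70.TW

open Finset Filter Pool.Agent.Helper28.Koblitz

/-- The primes `p ≤ x` with `p ∤ 6 Δ`. -/
def goodP (E : WeierstrassCurve ℤ) (x : ℕ) : Finset ℕ :=
  (range (x + 1)).filter (fun p : ℕ => p.Prime ∧ ¬ ((p : ℤ) ∣ 6 * E.Δ))

/-- `Π_{E,t}(x)`: the mean of the numbers of the primes `p ≤ x`, `p ∤ 6Δ`, such that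
`|E(𝔽_p)|/t`, respectively `(2p + 2 - |E(𝔽_p)|)/t`, is a prime. -/
noncomputable def meanCount (E : WeierstrassCurve ℤ) (t x : ℕ) : ℝ :=
  ((((goodP E x).filter (fun p : ℕ => t ∣ numPts E p ∧ Nat.Prime (numPts E p / t))).card : ℝ) +
    (((goodP E x).filter (fun p : ℕ => t ∣ 2 * p + 2 - numPts E p ∧
      Nat.Prime ((2 * p + 2 - numPts E p) / t))).card : ℝ)) / 2

open Classical in
/-- The square-free integers `D`, `|D| ≤ Y`. -/
noncomputable def sqf (Y : ℕ) : Finset ℤ := (Icc (-(Y : ℤ)) Y).filter Squarefree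

open Classical in
/-- The square-free `|D| ≤ Y` with a property. -/
noncomputable def sel (Y : ℕ) (P : ℤ → Prop) : Finset ℤ := (sqf Y).filter P

/-- The difference of the Koblitz ratio of `E` at `x` and its prediction at the level `n!`:
`π_{E,t}(x) (log x)² / x - (frequency of |E(𝔽_p)| ∈ t (ℤ/n!)ˣ, p ≤ x) / ∏_{ℓ ≤ n} (1 - 1/ℓ)`. -/
noncomputable def defect (E : WeierstrassCurve ℤ) (t n x : ℕ) : ℝ :=
  (koblitzCount E t x : ℝ) / ((x : ℝ) / (Real.log x) ^ 2) -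
    unitFreq E t (Nat.factorial n) x / ∏ ℓ ∈ (Nat.factorial n).primeFactors, (1 - 1 / (ℓ : ℝ))

/-- (ii) for almost all twists, uniformly in `x₀ ≤ x ≤ exp (Y ^ κ)`. -/
def AlmostAllRefined (κ : ℝ) (E : WeierstrassCurve ℤ) (t : ℕ) : Prop :=
  ∀ ε : ℝ, 0 < ε → ∃ n0 : ℕ, ∀ n : ℕ, n0 ≤ n → ∃ x0 Y0 : ℕ, ∀ Y : ℕ, Y0 ≤ Y →
    ((sel Y (fun D => ∃ x : ℕ, x0 ≤ x ∧ (x : ℝ) ≤ Real.exp ((Y : ℝ) ^ κ) ∧
      ¬ |defect (quadTwist E D) t n x| ≤ ε)).card : ℝ) ≤ ε * Y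

/-- (iii) for at least `(log x)^K` of the twists `|D| ≤ x^B` at every large scale. -/
def SomeRefined (B K : ℕ) (E : WeierstrassCurve ℤ) (t : ℕ) : Prop :=
  ∀ ε : ℝ, 0 < ε → ∃ n0 : ℕ, ∀ n : ℕ, n0 ≤ n → ∃ x0 : ℕ, ∀ x : ℕ, x0 ≤ x →
    (Real.log x) ^ K ≤ ((sel (x ^ B) (fun D => |defect (quadTwist E D) t n x| ≤ ε)).card : ℝ)

end Pool.Agent.Helper70.TW
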