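import Pool.Agent.Helper28.Koblitz.TwistSum
import Pool.Agent.Helper70.TW.Jac
import Pool.Agent.Helper70.TW.Defs

set_option autoImplicit false

/-!
# The Koblitz count of a quadratic twist

`koblitzCount (quadTwist E D) t x = meanCount E t x + (1/2) ∑ χ_D(p) c_p + O(ω(D))`.
-/

namespace Pool.Agent.Helper70.TW

open Finset Pool.Agent.Helper28.Koblitz

theorem quadTwist_disc (E : WeierstrassCurve ℤ) (D : ℤ) :
    (quadTwist E D).Δ = 6 ^ 12 * D ^ 6 * E.Δ := by
  have h := E.c_relation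
  have h1 : (quadTwist E D).Δ = 1259712 * D ^ 6 * (E.c₄ ^ 3 - E.c₆ ^ 2) := by
    simp only [quadTwist, WeierstrassCurve.Δ, WeierstrassCurve.b₂, WeierstrassCurve.b₄,
      WeierstrassCurve.b₆, WeierstrassCurve.b₈]
    ring
  rw [h1, ← h]
  ring

/-- The indicator of `N/t` being a prime. -/
noncomputable def ind (t N : ℕ) : ℝ := if t ∣ N ∧ Nat.Prime (N / t) then 1 else 0

theorem ind_nonneg (t N : ℕ) : 0 ≤ ind t N := by
  unfold ind; split_ifs <;> norm_num

theorem ind_le_one (t N : ℕ) : ind t N ≤ 1 := by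
  unfold ind; split_ifs <;> norm_num

theorem meanCount_eq (E : WeierstrassCurve ℤ) (t x : ℕ) :
    meanCount E t x = ∑ p ∈ goodP E x, (ind t (numPts E p) + ind t (2 * p + 2 - numPts E p)) / 2 := by
  unfold meanCount ind
  rw [Finset.card_filter, Finset.card_filter, ← Finset.sum_div, Finset.sum_add_distrib]
  push_cast
  rfl

/-- The coefficients. -/
noncomputable def cf (E : WeierstrassCurve ℤ) (t p : ℕ) : ℝ :=
  ind t (numPts E p) - ind t (2 * p + 2 - numPts E p)

theorem cf_abs (E : WeierstrassCurve ℤ) (t p : ℕ) : |cf E t p| ≤ 1 := by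
  unfold cf
  rw [abs_le]
  have h1 := ind_nonneg t (numPts E p)
  have h2 := ind_le_one t (numPts E p)
  have h3 := ind_nonneg t (2 * p + 2 - numPts E p)
  have h4 := ind_le_one t (2 * p + 2 - numPts E p)
  constructor <;> linarith

theorem goodP_mem {E : WeierstrassCurve ℤ} {x p : ℕ} (h : p ∈ goodP E x) :
    p ≤ x ∧ p.Prime ∧ p ≠ 2 ∧ p ≠ 3 ∧ Odd p ∧ ¬ ((p : ℤ) ∣ E.Δ) := by
  unfold goodP at h
  rw [mem_filter, mem_range] at h
  obtain ⟨h1, h2, h3⟩ := h
  have h4 : p ≠ 2 := by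
    rintro rfl
    exact h3 (Dvd.dvd.mul_right ⟨3, by norm_num⟩ _)
  have h5 : p ≠ 3 := by
    rintro rfl
    exact h3 (Dvd.dvd.mul_right ⟨2, by norm_num⟩ _)
  exact ⟨by omega, h2, h4, h5, h2.odd_of_ne_two h4, fun h => h3 (Dvd.dvd.mul_left h _)⟩

/-- The values at one prime. -/
theorem ind_twist (E : WeierstrassCurve ℤ) {D : ℤ} {x p t : ℕ} (hp : p ∈ goodP E x)
    (hD : ¬ ((p : ℤ) ∣ D)) :
    ind t (numPts (quadTwist E D) p) =
      (((psi D p : ℤ) : ℝ) ^ 2 * (ind t (numPts E p) + ind t (2 * p + 2 - numPts E p)) +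
        ((psi D p : ℤ) : ℝ) * cf E t p) / 2 := by
  obtain ⟨-, hpr, h2, h3, hodd, -⟩ := goodP_mem hp
  have : Fact p.Prime := ⟨hpr⟩
  have hD0 : (D : ZMod p) ≠ 0 := by
    rwa [Ne, ZMod.intCast_zmod_eq_zero_iff_dvd]
  have hpsi : psi D p = legendreSym p D := by
    rw [psi_odd hodd, jacobiSym.legendreSym.to_jacobiSym]
  unfold cf
  by_cases hsq : IsSquare (D : ZMod p)
  · rw [numPts_quadTwist_of_isSquare E h2 h3 hD0 hsq, hpsi, (legendreSym.eq_one_iff p hD0).2 hsq]
    push_cast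
    ring
  · have h := numPts_quadTwist_add E h2 h3 hsq
    have h' : numPts (quadTwist E D) p = 2 * p + 2 - numPts E p := by omega
    rw [h', hpsi, (legendreSym.eq_neg_one_iff p).2 hsq]
    push_cast
    ring

theorem psi_eq_zero_of_dvd {D : ℤ} {p : ℕ} (hp : p.Prime) (hodd : Odd p) (h : (p : ℤ) ∣ D) :
    psi D p = 0 := by
  have : Fact p.Prime := ⟨hp⟩
  rw [psi_odd hodd, ← jacobiSym.legendreSym.to_jacobiSym, legendreSym.eq_zero_iff]
  rwa [ZMod.intCast_zmod_eq_zero_iff_dvd]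

/-- The Koblitz count of a twist. -/
theorem koblitzCount_twist (E : WeierstrassCurve ℤ) (D : ℤ) (t x : ℕ) :
    (koblitzCount (quadTwist E D) t x : ℝ) =
      ∑ p ∈ goodP E x, (((psi D p : ℤ) : ℝ) ^ 2 *
        (ind t (numPts E p) + ind t (2 * p + 2 - numPts E p)) +
        ((psi D p : ℤ) : ℝ) * cf E t p) / 2 := by
  classical
  have h1 : ((Finset.range (x + 1)).filter (fun p : ℕ => p.Prime ∧
      ¬ (((p : ℕ) : ℤ) ∣ (quadTwist E D).Δ) ∧ t ∣ numPts (quadTwist E D) p ∧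
      Nat.Prime (numPts (quadTwist E D) p / t))) =
      (goodP E x).filter (fun p : ℕ => ¬ ((p : ℤ) ∣ D) ∧ (t ∣ numPts (quadTwist E D) p ∧
      Nat.Prime (numPts (quadTwist E D) p / t))) := by
    ext p
    unfold goodP
    rw [mem_filter, mem_filter, mem_filter, quadTwist_disc]
    constructor
    · rintro ⟨h1, h2, h3, h4⟩
      refine ⟨⟨h1, h2, ?_⟩, ?_, h4⟩
      · intro h
        apply h3
        have : (6 : ℤ) ^ 12 * D ^ 6 * E.Δ = (6 * E.Δ) * (6 ^ 11 * D ^ 6) := by ring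
        rw [this]
        exact Dvd.dvd.mul_right h _
      · intro h
        apply h3
        have : (6 : ℤ) ^ 12 * D ^ 6 * E.Δ = D * (6 ^ 12 * D ^ 5 * E.Δ) := by ring
        rw [this]
        exact Dvd.dvd.mul_right h _
    · rintro ⟨⟨h1, h2, h3⟩, h4, h5⟩
      refine ⟨h1, h2, ?_, h5⟩
      intro h
      have hpr : Prime (p : ℤ) := Nat.prime_iff_prime_int.1 h2
      rcases hpr.dvd_or_dvd h with h | h
      · rcases hpr.dvd_or_dvd h with h | h
        · exact h3 (Dvd.dvd.mul_right (hpr.dvd_of_dvd_pow h) _)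
        · exact h4 (hpr.dvd_of_dvd_pow h)
      · exact h3 (Dvd.dvd.mul_left h _)
  have h2 : koblitzCount (quadTwist E D) t x = ((goodP E x).filter (fun p : ℕ =>
      ¬ ((p : ℤ) ∣ D) ∧ (t ∣ numPts (quadTwist E D) p ∧
      Nat.Prime (numPts (quadTwist E D) p / t)))).card := by
    rw [← h1]
    unfold koblitzCount
    congr
  rw [h2, Finset.card_filter]
  push_cast
  refine Finset.sum_congr rfl fun p hp => ?_
  by_cases hD : (p : ℤ) ∣ D
  · obtain ⟨-, hpr, -, -, hodd, -⟩ := goodP_mem hp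
    rw [psi_eq_zero_of_dvd hpr hodd hD, if_neg (fun h => h.1 hD)]
    simp
  · rw [← ind_twist E hp hD]
    unfold ind
    by_cases h : t ∣ numPts (quadTwist E D) p ∧ Nat.Prime (numPts (quadTwist E D) p / t)
    · rw [if_pos ⟨hD, h⟩, if_pos h]
    · rw [if_neg (fun h' => h h'.2), if_neg h]

/-- The difference of the count of a twist and the mean. -/
theorem abs_sub_mean_le' (E : WeierstrassCurve ℤ) (D : ℤ) (t x : ℕ) :
    |(koblitzCount (quadTwist E D) t x : ℝ) - meanCount E t x| ≤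
      |∑ p ∈ goodP E x, cf E t p * ((psi D p : ℤ) : ℝ)| / 2 +
        (((goodP E x).filter (fun p : ℕ => (p : ℤ) ∣ D)).card : ℝ) := by
  classical
  rw [koblitzCount_twist, meanCount_eq, ← Finset.sum_sub_distrib]
  have h1 : ∀ p ∈ goodP E x, (((psi D p : ℤ) : ℝ) ^ 2 *
        (ind t (numPts E p) + ind t (2 * p + 2 - numPts E p)) +
        ((psi D p : ℤ) : ℝ) * cf E t p) / 2 -
        (ind t (numPts E p) + ind t (2 * p + 2 - numPts E p)) / 2 =
        (cf E t p * ((psi D p : ℤ) : ℝ)) / 2 + -((if (p : ℤ) ∣ D then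
        (ind t (numPts E p) + ind t (2 * p + 2 - numPts E p)) / 2 else 0)) := by
    intro p hp
    obtain ⟨-, hpr, h2, h3, hodd, -⟩ := goodP_mem hp
    have : Fact p.Prime := ⟨hpr⟩
    by_cases h : (p : ℤ) ∣ D
    · rw [if_pos h, psi_eq_zero_of_dvd hpr hodd h]
      push_cast
      ring
    · rw [if_neg h]
      have hD0 : (D : ZMod p) ≠ 0 := by
        rwa [Ne, ZMod.intCast_zmod_eq_zero_iff_dvd]
      have hsq : ((psi D p : ℤ) : ℝ) ^ 2 = 1 := by
        have hh : psi D p ^ 2 = 1 := by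
          rw [psi_odd hodd, ← jacobiSym.legendreSym.to_jacobiSym]
          exact legendreSym.sq_one p hD0
        exact_mod_cast hh
      rw [hsq]
      ring
  rw [Finset.sum_congr rfl h1, Finset.sum_add_distrib, Finset.sum_neg_distrib, ← Finset.sum_div]
  refine (abs_add_le _ _).trans ?_
  rw [abs_neg, abs_div, abs_two]
  refine add_le_add le_rfl ?_
  rw [← Finset.sum_filter]
  have h2 : ∀ p ∈ (goodP E x).filter (fun p : ℕ => (p : ℤ) ∣ D),
      |(ind t (numPts E p) + ind t (2 * p + 2 - numPts E p)) / 2| ≤ 1 := by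
    intro p _
    have h1 := ind_nonneg t (numPts E p)
    have h2 := ind_le_one t (numPts E p)
    have h3 := ind_nonneg t (2 * p + 2 - numPts E p)
    have h4 := ind_le_one t (2 * p + 2 - numPts E p)
    rw [abs_le]
    constructor <;> linarith
  refine (Finset.abs_sum_le_sum_abs _ _).trans ((Finset.sum_le_sum h2).trans ?_)
  rw [Finset.sum_const, nsmul_eq_mul, mul_one]

theorem abs_sub_mean_le (E : WeierstrassCurve ℤ) {D : ℤ} (hD : D ≠ 0) (t x : ℕ) :
    |(koblitzCount (quadTwist E D) t x : ℝ) - meanCount E t x| ≤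
      |∑ p ∈ goodP E x, cf E t p * ((psi D p : ℤ) : ℝ)| / 2 + (D.natAbs.primeFactors.card : ℝ) := by
  refine (abs_sub_mean_le' E D t x).trans (add_le_add le_rfl ?_)
  have h3 : (goodP E x).filter (fun p : ℕ => (p : ℤ) ∣ D) ⊆ D.natAbs.primeFactors := by
    intro p hp
    rw [mem_filter] at hp
    obtain ⟨-, hpr, -⟩ := goodP_mem hp.1
    rw [Nat.mem_primeFactors]
    exact ⟨hpr, Int.natCast_dvd.1 hp.2, Int.natAbs_ne_zero.2 hD⟩
  exact_mod_cast Finset.card_le_card h3

/-- `ω(D) ≤ log₂ |D|`. -/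
theorem card_primeFactors_le (n : ℕ) (hn : n ≠ 0) : n.primeFactors.card ≤ Nat.log 2 n := by
  refine Nat.le_log_of_pow_le (by norm_num) ?_
  calc 2 ^ n.primeFactors.card = ∏ p ∈ n.primeFactors, 2 := by rw [Finset.prod_const]
    _ ≤ ∏ p ∈ n.primeFactors, p :=
      Finset.prod_le_prod' fun p hp => (Nat.prime_of_mem_primeFactors hp).two_le
    _ ≤ n := Nat.le_of_dvd (Nat.pos_of_ne_zero hn) (Nat.prod_primeFactors_dvd n)

end Pool.Agent.Helper70.TW
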