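import Pool.Agent.Helper70.TW.RangeOne

set_option autoImplicit false

/-!
# Koblitz's law for almost all twists
-/

namespace Pool.Agent.Helper70.TW

open Finset Filter Pool.Agent.Helper28.Koblitz

/-- `x / (log x)²`. -/
noncomputable def gauge (x : ℕ) : ℝ := (x : ℝ) / (Real.log x) ^ 2

/-- The Koblitz count of the twist by `D` is within `ε x/(log x)²` of `c x/(log x)²`. -/
def Near (E : WeierstrassCurve ℤ) (t : ℕ) (c ε : ℝ) (D : ℤ) (x : ℕ) : Prop :=
  |(koblitzCount (quadTwist E D) t x : ℝ) - c * gauge x| ≤ ε * gauge x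

/-- (i) the mean law. -/
def MeanLaw (E : WeierstrassCurve ℤ) (t : ℕ) (c : ℝ) : Prop :=
  Tendsto (fun x : ℕ => meanCount E t x / gauge x) atTop (nhds c)

open Classical in
/-- (ii) Koblitz's law for almost all twists, uniformly in `x₀ ≤ x ≤ exp (Y ^ κ)`. -/
def AlmostAll (κ : ℝ) (E : WeierstrassCurve ℤ) (t : ℕ) (c : ℝ) : Prop :=
  ∀ ε : ℝ, 0 < ε → ∃ x0 Y0 : ℕ, ∀ Y : ℕ, Y0 ≤ Y →
    ((((sqf Y).filter (fun D => ∃ x : ℕ, x0 ≤ x ∧ (x : ℝ) ≤ Real.exp ((Y : ℝ) ^ κ) ∧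
      ¬ Near E t c ε D x)).card : ℕ) : ℝ) ≤ ε * Y

open Classical in
/-- (iii) Koblitz's law for a positive proportion of the twists at every large scale. -/
def PosProp (K : ℕ) (E : WeierstrassCurve ℤ) (t : ℕ) (c : ℝ) : Prop :=
  ∃ η : ℝ, 0 < η ∧ ∀ ε : ℝ, 0 < ε → ∃ x0 : ℕ, ∀ x : ℕ, x0 ≤ x → ∃ Y : ℕ,
    (Real.log x) ^ K ≤ Y ∧ η * Y ≤ ((((sqf Y).filter (fun D => Near E t c ε D x)).card : ℕ) : ℝ)

open Classical in
/-- (iii) Koblitz's law for at least `(log x)^K` of the twists `|D| ≤ x^B` at every large scale. -/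
def SomeTwists (B K : ℕ) (E : WeierstrassCurve ℤ) (t : ℕ) (c : ℝ) : Prop :=
  ∀ ε : ℝ, 0 < ε → ∃ x0 : ℕ, ∀ x : ℕ, x0 ≤ x →
    (Real.log x) ^ K ≤ ((((sqf (x ^ B)).filter (fun D => Near E t c ε D x)).card : ℕ) : ℝ)

theorem gauge_pos {x : ℕ} (hx : 2 ≤ x) : 0 < gauge x := by
  unfold gauge
  have h1 : (1 : ℝ) < x := by exact_mod_cast (by omega : 1 < x)
  have h2 := Real.log_pos h1
  positivity

theorem error_le {x : ℕ} (hx : 2 ≤ x) {ε : ℝ} (hε : 0 < ε) (h : 1 / ε ≤ Real.log x) :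
    (x : ℝ) / (Real.log x) ^ 3 ≤ ε * gauge x := by
  unfold gauge
  have h1 : (1 : ℝ) < x := by exact_mod_cast (by omega : 1 < x)
  have h2 := Real.log_pos h1
  have h3 : (x : ℝ) / (Real.log x) ^ 3 = (1 / Real.log x) * ((x : ℝ) / (Real.log x) ^ 2) := by
    field_simp
  rw [h3]
  refine mul_le_mul_of_nonneg_right ?_ (by positivity)
  rw [div_le_iff₀ h2]
  rw [div_le_iff₀ hε] at h
  linarith

theorem exists_log_ge (B : ℝ) : ∃ x0 : ℕ, 2 ≤ x0 ∧ ∀ x : ℕ, x0 ≤ x → B ≤ Real.log x := by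
  refine ⟨⌈Real.exp B⌉₊ + 2, by omega, fun x hx => ?_⟩
  have h1 : Real.exp B ≤ x := by
    have h2 := Nat.le_ceil (Real.exp B)
    have h3 : ((⌈Real.exp B⌉₊ : ℕ) : ℝ) ≤ x := by exact_mod_cast (by omega : ⌈Real.exp B⌉₊ ≤ x)
    linarith
  have h2 := Real.log_le_log (Real.exp_pos B) h1
  rwa [Real.log_exp] at h2

section

variable (C m : ℕ) (hlaw : ∀ (E : WeierstrassCurve ℤ) (x0 Y L : ℕ), 2 ≤ x0 → 1 ≤ Y → 1 ≤ L →
      ((badUpTo E 3 x0 Y L).card : ℝ) ≤ C * ((Y : ℝ) / √x0 + (L : ℝ) ^ m))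

include hlaw

theorem one_two (E : WeierstrassCurve ℤ) (t : ℕ) (c : ℝ) (h : MeanLaw E t c) :
    AlmostAll (1 / (2 * ((m : ℝ) + 1))) E t c := by
  classical
  intro ε hε
  -- the mean
  have h1 := (Metric.tendsto_atTop.1 h) (ε / 2) (by positivity)
  obtain ⟨x1, hx1⟩ := h1
  obtain ⟨x2, hx2, hx2'⟩ := exists_log_ge (1 / (ε / 2))
  set κ : ℝ := 1 / (2 * ((m : ℝ) + 1)) with hκ
  have hκ0 : 0 < κ := by positivity
  set x0 : ℕ := x1 + x2 + ⌈(2 * C / ε) ^ 2⌉₊ + 1 with hx0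
  refine ⟨x0, ⌈(2 * C * 2 ^ m / ε) ^ 2⌉₊ + 1, ?_⟩
  intro Y hY
  have hY1 : 1 ≤ Y := by omega
  have hY1' : (1 : ℝ) ≤ Y := by exact_mod_cast hY1
  set L : ℕ := ⌈(Y : ℝ) ^ κ⌉₊ with hL
  have hYκ : 1 ≤ (Y : ℝ) ^ κ := Real.one_le_rpow hY1' hκ0.le
  have hL1 : 1 ≤ L := by
    rw [hL, Nat.one_le_ceil_iff]
    linarith
  have hLup : (L : ℝ) ≤ 2 * (Y : ℝ) ^ κ := by
    have := (Nat.ceil_lt_add_one (by linarith : (0 : ℝ) ≤ (Y : ℝ) ^ κ)).le
    linarith
  have hLm : (L : ℝ) ^ m ≤ 2 ^ m * √Y := by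
    calc (L : ℝ) ^ m ≤ (2 * (Y : ℝ) ^ κ) ^ m := pow_le_pow_left₀ (Nat.cast_nonneg _) hLup m
      _ = 2 ^ m * (Y : ℝ) ^ (κ * m) := by
          rw [mul_pow, ← Real.rpow_natCast ((Y : ℝ) ^ κ), ← Real.rpow_mul (by linarith)]
      _ ≤ 2 ^ m * √Y := by
          refine mul_le_mul_of_nonneg_left ?_ (by positivity)
          rw [Real.sqrt_eq_rpow]
          refine Real.rpow_le_rpow_of_exponent_le hY1' ?_
          rw [hκ, div_mul_eq_mul_div, one_mul, div_le_div_iff₀ (by positivity) (by norm_num)]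
          linarith
  have hb := hlaw E x0 Y L (by omega) hY1 hL1
  have hsub : (sqf Y).filter (fun D => ∃ x : ℕ, x0 ≤ x ∧ (x : ℝ) ≤ Real.exp ((Y : ℝ) ^ κ) ∧
      ¬ Near E t c ε D x) ⊆ badUpTo E 3 x0 Y L := by
    intro D hD
    rw [mem_filter] at hD
    obtain ⟨h2, x, h3, h4, h5⟩ := hD
    unfold sqf at h2
    rw [mem_filter] at h2
    unfold badUpTo
    rw [mem_filter]
    refine ⟨h2.1, h2.2, t, x, h3, ?_, ?_⟩
    · refine h4.trans (Real.exp_le_exp.2 ?_)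
      exact Nat.le_ceil _
    · by_contra hcon
      rw [not_lt] at hcon
      apply h5
      unfold Near
      have hx2l : 2 ≤ x := by omega
      have hg := gauge_pos hx2l
      have h6 := error_le hx2l (by positivity : 0 < ε / 2) (hx2' x (by omega))
      have h7 := hx1 x (by omega)
      rw [Real.dist_eq] at h7
      have h8 : |meanCount E t x - c * gauge x| ≤ ε / 2 * gauge x := by
        have e : meanCount E t x - c * gauge x = (meanCount E t x / gauge x - c) * gauge x := by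
          field_simp
        rw [e, abs_mul, abs_of_pos hg]
        exact mul_le_mul_of_nonneg_right h7.le hg.le
      have h9 : (koblitzCount (quadTwist E D) t x : ℝ) - c * gauge x =
          ((koblitzCount (quadTwist E D) t x : ℝ) - meanCount E t x) +
          (meanCount E t x - c * gauge x) := by ring
      rw [h9]
      refine (abs_add_le _ _).trans ?_
      linarith
  have hle : ((((sqf Y).filter (fun D => ∃ x : ℕ, x0 ≤ x ∧ (x : ℝ) ≤ Real.exp ((Y : ℝ) ^ κ) ∧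
      ¬ Near E t c ε D x)).card : ℕ) : ℝ) ≤ ((badUpTo E 3 x0 Y L).card : ℝ) := by
    exact_mod_cast Finset.card_le_card hsub
  refine hle.trans (hb.trans ?_)
  have hC0 : (0 : ℝ) ≤ C := Nat.cast_nonneg _
  -- first term
  have hs0 : 2 * C / ε ≤ √x0 := by
    refine Real.le_sqrt_of_sq_le ?_
    refine (Nat.le_ceil _).trans ?_
    exact_mod_cast (by omega : ⌈(2 * (C : ℝ) / ε) ^ 2⌉₊ ≤ x0)
  have hx0pos : 0 < √(x0 : ℝ) := Real.sqrt_pos.2 (by exact_mod_cast (by omega : 0 < x0))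
  have hf : (C : ℝ) * ((Y : ℝ) / √x0) ≤ ε / 2 * Y := by
    rw [mul_div_assoc', div_le_iff₀ hx0pos]
    rw [div_le_iff₀ hε] at hs0
    nlinarith
  -- second term
  have hs1 : 2 * C * 2 ^ m / ε ≤ √Y := by
    refine Real.le_sqrt_of_sq_le ?_
    refine (Nat.le_ceil _).trans ?_
    exact_mod_cast (by omega : ⌈(2 * (C : ℝ) * 2 ^ m / ε) ^ 2⌉₊ ≤ Y)
  have hsq : √(Y : ℝ) * √Y = Y := Real.mul_self_sqrt (by linarith)
  have hg : (C : ℝ) * (L : ℝ) ^ m ≤ ε / 2 * Y := by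
    have h2 : (C : ℝ) * (L : ℝ) ^ m ≤ C * (2 ^ m * √Y) := mul_le_mul_of_nonneg_left hLm hC0
    rw [div_le_iff₀ hε] at hs1
    have h3 : (2 * (C : ℝ) * 2 ^ m) * √Y ≤ (√Y * ε) * √Y :=
      mul_le_mul_of_nonneg_right hs1 (Real.sqrt_nonneg _)
    nlinarith
  rw [mul_add]
  linarith

theorem three_one (E : WeierstrassCurve ℤ) (t : ℕ) (c : ℝ) (h : PosProp (2 * (m + 1)) E t c) :
    MeanLaw E t c := by
  classical
  obtain ⟨η, hη, h⟩ := h
  unfold MeanLaw
  rw [Metric.tendsto_atTop]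
  intro ε hε
  obtain ⟨x1, hx1⟩ := h (ε / 4) (by positivity)
  obtain ⟨x2, hx2, hx2'⟩ := exists_log_ge (1 / (ε / 4) + 1)
  obtain ⟨x3, hx3, hx3'⟩ := exists_log_ge (4 * C * 2 ^ m / η + 1)
  set x0 : ℕ := x1 + x2 + x3 + ⌈(4 * C / η + 1) ^ 2⌉₊ with hx0
  refine ⟨x0, fun x hx => ?_⟩
  have hxge2 : 2 ≤ x := by omega
  have hx1' : (1 : ℝ) < x := by exact_mod_cast (by omega : 1 < x)
  have hlog1 : 1 / (ε / 4) + 1 ≤ Real.log x := hx2' x (by omega)
  have hlog2 : 4 * C * 2 ^ m / η + 1 ≤ Real.log x := hx3' x (by omega)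
  have hC0 : (0 : ℝ) ≤ C := Nat.cast_nonneg _
  have hlogge1 : 1 ≤ Real.log x := by
    have : 0 ≤ 1 / (ε / 4) := by positivity
    linarith
  obtain ⟨Y, hYK, hYη⟩ := hx1 x (by omega)
  have hpow1 : (1 : ℝ) ≤ (Real.log x) ^ (2 * (m + 1)) := one_le_pow₀ hlogge1
  have hYpos : (1 : ℝ) ≤ Y := by linarith
  have hY1 : 1 ≤ Y := by exact_mod_cast hYpos
  set L : ℕ := ⌈Real.log x⌉₊ with hL
  have hL1 : 1 ≤ L := by
    rw [hL, Nat.one_le_ceil_iff]
    linarith
  have hLup : (L : ℝ) ≤ 2 * Real.log x := by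
    have := (Nat.ceil_lt_add_one (by linarith : (0 : ℝ) ≤ Real.log x)).le
    linarith
  have hb := hlaw E x Y L hxge2 hY1 hL1
  -- the exceptional set is smaller than `η Y`
  have hsmall : (C : ℝ) * ((Y : ℝ) / √x + (L : ℝ) ^ m) < η * Y := by
    have hs0 : 4 * C / η + 1 ≤ √x := by
      refine Real.le_sqrt_of_sq_le ?_
      refine (Nat.le_ceil _).trans ?_
      exact_mod_cast (by omega : ⌈(4 * (C : ℝ) / η + 1) ^ 2⌉₊ ≤ x)
    have hxpos : 0 < √(x : ℝ) := Real.sqrt_pos.2 (by linarith)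
    have hf : (C : ℝ) * ((Y : ℝ) / √x) ≤ η / 4 * Y := by
      rw [mul_div_assoc', div_le_iff₀ hxpos]
      have h1 : 4 * C / η ≤ √x := by linarith
      rw [div_le_iff₀ hη] at h1
      nlinarith
    have hg : (C : ℝ) * (L : ℝ) ^ m ≤ η / 4 * Y := by
      have h1 : (L : ℝ) ^ m ≤ 2 ^ m * (Real.log x) ^ m := by
        rw [← mul_pow]
        exact pow_le_pow_left₀ (Nat.cast_nonneg _) hLup m
      have h2 : (Real.log x) ^ m * Real.log x ≤ Y := by
        refine le_trans ?_ hYK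
        rw [← pow_succ]
        exact pow_le_pow_right₀ hlogge1 (by omega)
      have h3 : 4 * C * 2 ^ m / η ≤ Real.log x := by linarith
      rw [div_le_iff₀ hη] at h3
      have h4 : 0 < Real.log x := by linarith
      have h5 : (C : ℝ) * (L : ℝ) ^ m ≤ C * (2 ^ m * (Real.log x) ^ m) :=
        mul_le_mul_of_nonneg_left h1 hC0
      have h6 : (4 * (C : ℝ) * 2 ^ m) * (Real.log x) ^ m ≤ (Real.log x * η) * (Real.log x) ^ m :=
        mul_le_mul_of_nonneg_right h3 (by positivity)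
      have h7 : η * ((Real.log x) ^ m * Real.log x) ≤ η * Y := mul_le_mul_of_nonneg_left h2 hη.le
      nlinarith
    rw [mul_add]
    have : 0 < η * Y := by positivity
    linarith
  -- a twist which is near and not exceptional
  have hex : ∃ D ∈ (sqf Y).filter (fun D => Near E t c (ε / 4) D x), D ∉ badUpTo E 3 x Y L := by
    by_contra hcon
    push Not at hcon
    have h1 : (sqf Y).filter (fun D => Near E t c (ε / 4) D x) ⊆ badUpTo E 3 x Y L :=
      fun D hD => hcon D hD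
    have h2 : ((((sqf Y).filter (fun D => Near E t c (ε / 4) D x)).card : ℕ) : ℝ) ≤
        ((badUpTo E 3 x Y L).card : ℝ) := by exact_mod_cast Finset.card_le_card h1
    linarith
  obtain ⟨D, hD, hDb⟩ := hex
  rw [mem_filter] at hD
  obtain ⟨hDs, hDn⟩ := hD
  unfold sqf at hDs
  rw [mem_filter] at hDs
  have hg := gauge_pos hxge2
  have h1 : |(koblitzCount (quadTwist E D) t x : ℝ) - meanCount E t x| ≤
      (x : ℝ) / (Real.log x) ^ 3 := by
    by_contra hcon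
    rw [not_le] at hcon
    apply hDb
    unfold badUpTo
    rw [mem_filter]
    refine ⟨hDs.1, hDs.2, t, x, le_rfl, ?_, hcon⟩
    have h2 : (x : ℝ) = Real.exp (Real.log x) := (Real.exp_log (by linarith)).symm
    rw [h2]
    exact Real.exp_le_exp.2 (Nat.le_ceil _)
  have h2 := error_le hxge2 (by positivity : 0 < ε / 4) (by linarith)
  unfold Near at hDn
  rw [Real.dist_eq]
  have h3 : meanCount E t x / gauge x - c = (meanCount E t x - c * gauge x) / gauge x := by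
    field_simp
  rw [h3, abs_div, abs_of_pos hg, div_lt_iff₀ hg]
  have h4 : meanCount E t x - c * gauge x =
      ((koblitzCount (quadTwist E D) t x : ℝ) - c * gauge x) +
      -((koblitzCount (quadTwist E D) t x : ℝ) - meanCount E t x) := by ring
  rw [h4]
  refine (abs_add_le _ _).trans_lt ?_
  rw [abs_neg]
  have h5 : 0 < ε * gauge x := by positivity
  linarith

omit hlaw in
theorem two_three (hsqf : ∀ Y : ℕ, (Y : ℝ) / 2 ≤ ((sqf Y).card : ℝ)) (E : WeierstrassCurve ℤ)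
    (t : ℕ) (c : ℝ) (h : AlmostAll (1 / (2 * ((m : ℝ) + 1))) E t c) :
    PosProp (2 * (m + 1)) E t c := by
  classical
  refine ⟨1 / 4, by norm_num, fun ε hε => ?_⟩
  set ε' : ℝ := min ε (1 / 8) with hε'
  have hε'0 : 0 < ε' := lt_min hε (by norm_num)
  obtain ⟨x0, Y0, h⟩ := h ε' hε'0
  refine ⟨x0 + 3, fun x hx => ?_⟩
  have hx1 : (1 : ℝ) < x := by exact_mod_cast (by omega : 1 < x)
  have hlog := Real.log_pos hx1
  set Y : ℕ := max Y0 ⌈(Real.log x) ^ (2 * (m + 1))⌉₊ with hY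
  have hYK : (Real.log x) ^ (2 * (m + 1)) ≤ Y :=
    (Nat.le_ceil _).trans (by exact_mod_cast le_max_right _ _)
  refine ⟨Y, hYK, ?_⟩
  have h1 := h Y (le_max_left _ _)
  have h2 := hsqf Y
  have hκ : Real.log x ≤ (Y : ℝ) ^ (1 / (2 * ((m : ℝ) + 1))) := by
    have h3 : ((Real.log x) ^ (2 * (m + 1))) ^ (1 / (2 * ((m : ℝ) + 1))) ≤
        (Y : ℝ) ^ (1 / (2 * ((m : ℝ) + 1))) :=
      Real.rpow_le_rpow (by positivity) hYK (by positivity)
    rw [← Real.rpow_natCast, ← Real.rpow_mul hlog.le] at h3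
    have h4 : (((2 * (m + 1) : ℕ) : ℝ) * (1 / (2 * ((m : ℝ) + 1)))) = 1 := by
      push_cast
      field_simp
    rwa [h4, Real.rpow_one] at h3
  have hxle : (x : ℝ) ≤ Real.exp ((Y : ℝ) ^ (1 / (2 * ((m : ℝ) + 1)))) := by
    calc (x : ℝ) = Real.exp (Real.log x) := (Real.exp_log (by linarith)).symm
      _ ≤ _ := Real.exp_le_exp.2 hκ
  have hsub : sqf Y ⊆ (sqf Y).filter (fun D => Near E t c ε D x) ∪
      (sqf Y).filter (fun D => ∃ x : ℕ, x0 ≤ x ∧
        (x : ℝ) ≤ Real.exp ((Y : ℝ) ^ (1 / (2 * ((m : ℝ) + 1)))) ∧ ¬ Near E t c ε' D x) := by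
    intro D hD
    rw [mem_union, mem_filter, mem_filter]
    by_cases hn : Near E t c ε' D x
    · left
      refine ⟨hD, ?_⟩
      unfold Near at hn ⊢
      refine hn.trans (mul_le_mul_of_nonneg_right (min_le_left _ _) (gauge_pos (by omega)).le)
    · right
      exact ⟨hD, x, by omega, hxle, hn⟩
  have h3 := (Finset.card_le_card hsub).trans (Finset.card_union_le _ _)
  have h4 : ((sqf Y).card : ℝ) ≤ ((((sqf Y).filter (fun D => Near E t c ε D x)).card : ℕ) : ℝ) +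
      ((((sqf Y).filter (fun D => ∃ x : ℕ, x0 ≤ x ∧
        (x : ℝ) ≤ Real.exp ((Y : ℝ) ^ (1 / (2 * ((m : ℝ) + 1)))) ∧ ¬ Near E t c ε' D x)).card : ℕ) : ℝ) := by
    exact_mod_cast h3
  have h5 : ε' * (Y : ℝ) ≤ 1 / 8 * Y :=
    mul_le_mul_of_nonneg_right (min_le_right _ _) (Nat.cast_nonneg _)
  have h6 : (0 : ℝ) ≤ Y := Nat.cast_nonneg _
  linarith

omit hlaw in
theorem two_some (B K : ℕ) (hB : 1 ≤ B) (hsqf : ∀ Y : ℕ, (Y : ℝ) / 2 ≤ ((sqf Y).card : ℝ))
    (E : WeierstrassCurve ℤ) (t : ℕ) (c κ : ℝ) (hκ : 0 < κ) (h : AlmostAll κ E t c) :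
    SomeTwists B K E t c := by
  classical
  intro ε hε
  set ε' : ℝ := min ε (1 / 4) with hε'
  have hε'0 : 0 < ε' := lt_min hε (by norm_num)
  obtain ⟨x0, Y0, h⟩ := h ε' hε'0
  obtain ⟨x1, hx1⟩ := ev_log 4 K
  obtain ⟨x2, hx2⟩ := Filter.eventually_atTop.1 (tendsto_natCast_atTop_atTop.eventually
    ((isLittleO_log_rpow_atTop hκ).def (c := 1) (by norm_num)))
  refine ⟨x0 + Y0 + x1 + x2 + 3, fun x hx => ?_⟩
  have hxR : (1 : ℝ) < x := by exact_mod_cast (by omega : 1 < x)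
  have hlog := Real.log_pos hxR
  have h1 := h x (by omega)
  have h2 := hsqf x
  have h3 := hx1 x (by omega)
  have h4 := hx2 x (by omega)
  rw [Real.norm_eq_abs, Real.norm_eq_abs, one_mul, abs_of_pos hlog,
    abs_of_nonneg (by positivity)] at h4
  have hxle : (x : ℝ) ≤ Real.exp ((x : ℝ) ^ κ) := by
    calc (x : ℝ) = Real.exp (Real.log x) := (Real.exp_log (by linarith)).symm
      _ ≤ _ := Real.exp_le_exp.2 h4
  have hsub : sqf x ⊆ (sqf (x ^ B)).filter (fun D => Near E t c ε D x) ∪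
      (sqf x).filter (fun D => ∃ y : ℕ, x0 ≤ y ∧
        (y : ℝ) ≤ Real.exp ((x : ℝ) ^ κ) ∧ ¬ Near E t c ε' D y) := by
    intro D hD
    rw [mem_union, mem_filter, mem_filter]
    by_cases hn : Near E t c ε' D x
    · left
      refine ⟨?_, ?_⟩
      · unfold sqf at hD ⊢
        rw [mem_filter, mem_Icc] at hD ⊢
        have hxB : (x : ℤ) ≤ ((x ^ B : ℕ) : ℤ) := by
          exact_mod_cast Nat.le_self_pow (by omega) x
        exact ⟨⟨by linarith [hD.1.1], by linarith [hD.1.2]⟩, hD.2⟩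
      · unfold Near at hn ⊢
        refine hn.trans (mul_le_mul_of_nonneg_right (min_le_left _ _) (gauge_pos (by omega)).le)
    · right
      exact ⟨hD, x, by omega, hxle, hn⟩
  have h5 := (Finset.card_le_card hsub).trans (Finset.card_union_le _ _)
  have h6 : ((sqf x).card : ℝ) ≤ ((((sqf (x ^ B)).filter (fun D => Near E t c ε D x)).card : ℕ) : ℝ) +
      ((((sqf x).filter (fun D => ∃ y : ℕ, x0 ≤ y ∧
        (y : ℝ) ≤ Real.exp ((x : ℝ) ^ κ) ∧ ¬ Near E t c ε' D y)).card : ℕ) : ℝ) := by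
    exact_mod_cast h5
  have h7 : ε' * (x : ℝ) ≤ 1 / 4 * x :=
    mul_le_mul_of_nonneg_right (min_le_right _ _) (Nat.cast_nonneg _)
  linarith

omit hlaw in
theorem some_one (B : ℕ) (hgen : ∀ (E : WeierstrassCurve ℤ) (x0 Y L : ℕ), 2 ≤ x0 → 1 ≤ Y → 1 ≤ L →
      ((badUpTo E 3 x0 Y L).card : ℝ) ≤ C * ((Y : ℝ) / (x0 : ℝ) ^ B + (L : ℝ) ^ m))
    (E : WeierstrassCurve ℤ) (t : ℕ) (c : ℝ) (h : SomeTwists B (m + 1) E t c) :
    MeanLaw E t c := by
  classical
  unfold MeanLaw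
  rw [Metric.tendsto_atTop]
  intro ε hε
  obtain ⟨x1, hx1⟩ := h (ε / 4) (by positivity)
  obtain ⟨x2, hx2, hx2'⟩ := exists_log_ge (1 / (ε / 4) + 1)
  obtain ⟨x3, hx3, hx3'⟩ := exists_log_ge (C * (1 + 2 ^ m) + 1)
  refine ⟨x1 + x2 + x3, fun x hx => ?_⟩
  have hxge2 : 2 ≤ x := by omega
  have hx1' : (1 : ℝ) < x := by exact_mod_cast (by omega : 1 < x)
  have hlog1 : 1 / (ε / 4) + 1 ≤ Real.log x := hx2' x (by omega)
  have hlog2 : C * (1 + 2 ^ m) + 1 ≤ Real.log x := hx3' x (by omega)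
  have hC0 : (0 : ℝ) ≤ C := Nat.cast_nonneg _
  have hlogge1 : 1 ≤ Real.log x := by
    have : 0 ≤ 1 / (ε / 4) := by positivity
    linarith
  have hYη := hx1 x (by omega)
  have hY1 : 1 ≤ x ^ B := Nat.one_le_pow _ _ (by omega)
  set L : ℕ := ⌈Real.log x⌉₊ with hL
  have hL1 : 1 ≤ L := by
    rw [hL, Nat.one_le_ceil_iff]
    linarith
  have hLup : (L : ℝ) ≤ 2 * Real.log x := by
    have := (Nat.ceil_lt_add_one (by linarith : (0 : ℝ) ≤ Real.log x)).le
    linarith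
  have hb := hgen E x (x ^ B) L hxge2 hY1 hL1
  have hsmall : (C : ℝ) * (((x ^ B : ℕ) : ℝ) / (x : ℝ) ^ B + (L : ℝ) ^ m) <
      (Real.log x) ^ (m + 1) := by
    have e1 : ((x ^ B : ℕ) : ℝ) / (x : ℝ) ^ B = 1 := by
      push_cast
      exact div_self (by positivity)
    rw [e1]
    have h1 : (L : ℝ) ^ m ≤ 2 ^ m * (Real.log x) ^ m := by
      rw [← mul_pow]
      exact pow_le_pow_left₀ (Nat.cast_nonneg _) hLup m
    have h2 : (1 : ℝ) ≤ (Real.log x) ^ m := one_le_pow₀ hlogge1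
    have h3 : (C : ℝ) * (1 + (L : ℝ) ^ m) ≤ C * ((1 + 2 ^ m) * (Real.log x) ^ m) := by
      refine mul_le_mul_of_nonneg_left ?_ hC0
      linarith
    have h4 : (C * (1 + 2 ^ m) : ℝ) * (Real.log x) ^ m < (Real.log x) ^ (m + 1) := by
      rw [pow_succ, mul_comm]
      exact mul_lt_mul_of_pos_left (by linarith) (by linarith)
    calc (C : ℝ) * (1 + (L : ℝ) ^ m) ≤ C * ((1 + 2 ^ m) * (Real.log x) ^ m) := h3
      _ = (C * (1 + 2 ^ m) : ℝ) * (Real.log x) ^ m := by ring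
      _ < _ := h4
  have hex : ∃ D ∈ (sqf (x ^ B)).filter (fun D => Near E t c (ε / 4) D x),
      D ∉ badUpTo E 3 x (x ^ B) L := by
    by_contra hcon
    push Not at hcon
    have h1 : (sqf (x ^ B)).filter (fun D => Near E t c (ε / 4) D x) ⊆
        badUpTo E 3 x (x ^ B) L := fun D hD => hcon D hD
    have h2 : ((((sqf (x ^ B)).filter (fun D => Near E t c (ε / 4) D x)).card : ℕ) : ℝ) ≤
        ((badUpTo E 3 x (x ^ B) L).card : ℝ) := by exact_mod_cast Finset.card_le_card h1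
    linarith
  obtain ⟨D, hD, hDb⟩ := hex
  rw [mem_filter] at hD
  obtain ⟨hDs, hDn⟩ := hD
  unfold sqf at hDs
  rw [mem_filter] at hDs
  have hg := gauge_pos hxge2
  have h1 : |(koblitzCount (quadTwist E D) t x : ℝ) - meanCount E t x| ≤
      (x : ℝ) / (Real.log x) ^ 3 := by
    by_contra hcon
    rw [not_le] at hcon
    apply hDb
    unfold badUpTo
    rw [mem_filter]
    refine ⟨hDs.1, hDs.2, t, x, le_rfl, ?_, hcon⟩
    have h2 : (x : ℝ) = Real.exp (Real.log x) := (Real.exp_log (by linarith)).symm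
    rw [h2]
    exact Real.exp_le_exp.2 (Nat.le_ceil _)
  have h2 := error_le hxge2 (by positivity : 0 < ε / 4) (by linarith)
  unfold Near at hDn
  rw [Real.dist_eq]
  have h3 : meanCount E t x / gauge x - c = (meanCount E t x - c * gauge x) / gauge x := by
    field_simp
  rw [h3, abs_div, abs_of_pos hg, div_lt_iff₀ hg]
  have h4 : meanCount E t x - c * gauge x =
      ((koblitzCount (quadTwist E D) t x : ℝ) - c * gauge x) +
      -((koblitzCount (quadTwist E D) t x : ℝ) - meanCount E t x) := by ring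
  rw [h4]
  refine (abs_add_le _ _).trans_lt ?_
  rw [abs_neg]
  have h5 : 0 < ε * gauge x := by positivity
  linarith

end

end Pool.Agent.Helper70.TW
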