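import Mathlib

set_option autoImplicit false

/-!
# Elementary estimates with logarithms
-/

namespace Pool.Agent.Helper70.TW

open Finset

theorem log_pow_le (n : ℕ) : ∃ C : ℝ, 0 < C ∧ ∀ x : ℝ, 1 ≤ x →
    (1 + Real.log x) ^ n ≤ C * √x := by
  have hn : (0 : ℝ) < 2 * (n + 1) := by positivity
  refine ⟨(1 + 2 * (n + 1)) ^ n, by positivity, fun x hx => ?_⟩
  have hx0 : 0 < x := by linarith
  have h1 : Real.log x ≤ x ^ (1 / (2 * ((n : ℝ) + 1))) / (1 / (2 * ((n : ℝ) + 1))) :=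
    Real.log_le_rpow_div hx0.le (by positivity)
  rw [div_div_eq_mul_div, div_one] at h1
  have h2 : (1 : ℝ) ≤ x ^ (1 / (2 * ((n : ℝ) + 1))) := Real.one_le_rpow hx (by positivity)
  have h3 : 1 + Real.log x ≤ (1 + 2 * ((n : ℝ) + 1)) * x ^ (1 / (2 * ((n : ℝ) + 1))) := by
    nlinarith
  have h0 : 0 ≤ 1 + Real.log x := by
    have := Real.log_nonneg hx
    linarith
  calc (1 + Real.log x) ^ n ≤ ((1 + 2 * ((n : ℝ) + 1)) * x ^ (1 / (2 * ((n : ℝ) + 1)))) ^ n :=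
        pow_le_pow_left₀ h0 h3 n
    _ = (1 + 2 * ((n : ℝ) + 1)) ^ n * (x ^ (1 / (2 * ((n : ℝ) + 1)))) ^ n := by rw [mul_pow]
    _ ≤ (1 + 2 * ((n : ℝ) + 1)) ^ n * √x := by
        refine mul_le_mul_of_nonneg_left ?_ (by positivity)
        rw [← Real.rpow_natCast, ← Real.rpow_mul hx0.le, Real.sqrt_eq_rpow]
        refine Real.rpow_le_rpow_of_exponent_le hx ?_
        rw [one_div, one_div, mul_comm, ← div_eq_mul_inv, div_le_iff₀ hn]
        linarith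

theorem ev_log (B : ℝ) (n : ℕ) : ∃ y1 : ℕ, ∀ y : ℕ, y1 ≤ y → B * (Real.log y) ^ n ≤ y := by
  have h := (Real.isLittleO_pow_log_id_atTop (n := n)).def (c := 1 / (|B| + 1)) (by positivity)
  have h2 := tendsto_natCast_atTop_atTop.eventually h
  obtain ⟨y1, hy1⟩ := Filter.eventually_atTop.1 h2
  refine ⟨max y1 1, fun y hy => ?_⟩
  have h3 := hy1 y (le_trans (le_max_left _ _) hy)
  have hy1' : (1 : ℝ) ≤ y := by exact_mod_cast le_trans (le_max_right _ _) hy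
  have h4 : 0 ≤ Real.log y := Real.log_nonneg hy1'
  simp only [id, Real.norm_eq_abs] at h3
  rw [abs_of_nonneg (pow_nonneg h4 n), abs_of_nonneg (by linarith : (0 : ℝ) ≤ y), one_div,
    inv_mul_eq_div, le_div_iff₀ (by positivity)] at h3
  have h5 : B ≤ |B| + 1 := by linarith [le_abs_self B]
  nlinarith [pow_nonneg h4 n]

theorem one_div_le_tel {x : ℝ} (hx : 2 ≤ x) :
    1 / (x * √x) ≤ 2 * (1 / √(x - 1) - 1 / √x) := by
  have h0 : 0 < √x := Real.sqrt_pos.2 (by linarith)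
  have h1 : 0 < √(x - 1) := Real.sqrt_pos.2 (by linarith)
  have h2 : √(x - 1) ≤ √x := Real.sqrt_le_sqrt (by linarith)
  have e0 : √x ^ 2 = x := Real.sq_sqrt (by linarith)
  have e1 : √(x - 1) ^ 2 = x - 1 := Real.sq_sqrt (by linarith)
  have e2 : 2 * (1 / √(x - 1) - 1 / √x) = 2 / (√x * √(x - 1) * (√x + √(x - 1))) := by
    have hne : √x + √(x - 1) ≠ 0 := by positivity
    field_simp
    nlinarith
  rw [e2, div_le_div_iff₀ (by positivity) (by positivity)]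
  have e3 : x * √x = √x ^ 2 * √x := by rw [e0]
  rw [e3]
  have h3 : √x * √(x - 1) * (√x + √(x - 1)) ≤ √x * √x * (√x + √x) := by
    have : √x * √(x - 1) ≤ √x * √x := mul_le_mul_of_nonneg_left h2 h0.le
    exact mul_le_mul this (by linarith) (by positivity) (by positivity)
  nlinarith

theorem sum_tail (x0 N : ℕ) (hx0 : 2 ≤ x0) :
    ∑ x ∈ Icc x0 N, 1 / ((x : ℝ) * √x) ≤ 4 / √x0 := by
  have hx0' : (2 : ℝ) ≤ x0 := by exact_mod_cast hx0
  have key : ∀ n : ℕ, ∑ x ∈ Ico x0 (x0 + n), 1 / ((x : ℝ) * √x) ≤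
      2 * (1 / √((x0 : ℝ) - 1) - 1 / √((x0 + n : ℕ) - 1 : ℝ)) := by
    intro n
    induction n with
    | zero => simp
    | succ n ih =>
      rw [← add_assoc, Finset.sum_Ico_succ_top (by omega)]
      have h := one_div_le_tel (x := ((x0 + n : ℕ) : ℝ)) (by push_cast; nlinarith [Nat.cast_nonneg (α := ℝ) n])
      have e : (((x0 + n + 1 : ℕ) : ℝ) - 1) = ((x0 + n : ℕ) : ℝ) := by push_cast; ring
      rw [e]
      linarith
  have h1 : ∑ x ∈ Icc x0 N, 1 / ((x : ℝ) * √x) ≤ ∑ x ∈ Ico x0 (x0 + (N + 1)), 1 / ((x : ℝ) * √x) := by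
    refine Finset.sum_le_sum_of_subset_of_nonneg ?_ fun i _ _ => by positivity
    intro i hi
    rw [mem_Icc] at hi
    rw [mem_Ico]
    omega
  refine h1.trans ((key (N + 1)).trans ?_)
  have h2 : (0 : ℝ) ≤ 1 / √((x0 + (N + 1) : ℕ) - 1 : ℝ) := by positivity
  have h3 : 1 / √((x0 : ℝ) - 1) ≤ 2 / √x0 := by
    have h0 : 0 < √(x0 : ℝ) := Real.sqrt_pos.2 (by linarith)
    have h1 : 0 < √((x0 : ℝ) - 1) := Real.sqrt_pos.2 (by linarith)
    rw [div_le_div_iff₀ h1 h0, one_mul]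
    have h4 : √(x0 : ℝ) ≤ √(4 * ((x0 : ℝ) - 1)) := Real.sqrt_le_sqrt (by linarith)
    have h5 : √(4 * ((x0 : ℝ) - 1)) = 2 * √((x0 : ℝ) - 1) := by
      rw [Real.sqrt_mul (by norm_num)]
      have : √(4 : ℝ) = 2 := by
        rw [show (4 : ℝ) = 2 ^ 2 by norm_num]
        exact Real.sqrt_sq (by norm_num)
      rw [this]
    rw [h5] at h4
    exact h4
  have h4 : 4 / √(x0 : ℝ) = 2 * (2 / √(x0 : ℝ)) := by ring
  rw [h4]
  linarith

/-- `log₂ n ≤ 2 log n`. -/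
theorem natLog_le (n : ℕ) : (Nat.log 2 n : ℝ) ≤ 2 * Real.log n := by
  rcases Nat.eq_zero_or_pos n with h | h
  · subst h; simp
  · have h1 : 2 ^ Nat.log 2 n ≤ n := Nat.pow_log_le_self 2 h.ne'
    have h2 : ((2 : ℝ) ^ Nat.log 2 n) ≤ n := by exact_mod_cast h1
    have h3 := Real.log_le_log (by positivity) h2
    rw [Real.log_pow] at h3
    have h4 := Real.log_two_gt_d9
    have h5 : (0 : ℝ) ≤ (Nat.log 2 n : ℝ) := Nat.cast_nonneg _
    nlinarith

end Pool.Agent.Helper70.TW
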