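import Pool.Agent.Helper70.TW.Scale

set_option autoImplicit false

/-!
# The law for all scales
-/

namespace Pool.Agent.Helper70.TW

open Finset Pool.Agent.Helper28.Koblitz

theorem koblitz_mono (E : WeierstrassCurve ℤ) (t : ℕ) {y x : ℕ} (h : y ≤ x) :
    (koblitzCount E t y : ℝ) ≤ koblitzCount E t x ∧
    (koblitzCount E t x : ℝ) ≤ koblitzCount E t y + ((x : ℝ) - y) := by
  classical
  have h1 : koblitzCount E t y ≤ koblitzCount E t x := by
    unfold koblitzCount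
    refine Finset.card_le_card (Finset.filter_subset_filter _ ?_)
    intro i hi
    rw [mem_range] at hi ⊢
    omega
  have h2 : koblitzCount E t x ≤ koblitzCount E t y + (x - y) := by
    unfold koblitzCount
    have h3 : (Ico (y + 1) (x + 1)).card = x - y := by rw [Nat.card_Ico]; omega
    rw [← h3]
    refine (Finset.card_le_card ?_).trans (Finset.card_union_le _ _)
    intro i hi
    rw [mem_filter, mem_range] at hi
    rw [mem_union, mem_filter, mem_range, mem_Ico]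
    by_cases h4 : i < y + 1
    · exact Or.inl ⟨h4, hi.2⟩
    · exact Or.inr ⟨by omega, hi.1⟩
  refine ⟨by exact_mod_cast h1, ?_⟩
  have h3 : (koblitzCount E t x : ℝ) ≤ koblitzCount E t y + ((x - y : ℕ) : ℝ) := by
    exact_mod_cast h2
  rwa [Nat.cast_sub h] at h3

theorem filter_good_mono (E : WeierstrassCurve ℤ) (Q : ℕ → Prop) [DecidablePred Q] {y x : ℕ}
    (h : y ≤ x) :
    (((goodP E y).filter Q).card : ℝ) ≤ ((goodP E x).filter Q).card ∧
    (((goodP E x).filter Q).card : ℝ) ≤ ((goodP E y).filter Q).card + ((x : ℝ) - y) := by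
  have h1 : ((goodP E y).filter Q).card ≤ ((goodP E x).filter Q).card := by
    unfold goodP
    refine Finset.card_le_card (Finset.filter_subset_filter _ (Finset.filter_subset_filter _ ?_))
    intro i hi
    rw [mem_range] at hi ⊢
    omega
  have h2 : ((goodP E x).filter Q).card ≤ ((goodP E y).filter Q).card + (x - y) := by
    unfold goodP
    have h3 : (Ico (y + 1) (x + 1)).card = x - y := by rw [Nat.card_Ico]; omega
    rw [← h3]
    refine (Finset.card_le_card ?_).trans (Finset.card_union_le _ _)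
    intro i hi
    rw [mem_filter, mem_filter, mem_range] at hi
    rw [mem_union, mem_filter, mem_filter, mem_range, mem_Ico]
    by_cases h4 : i < y + 1
    · exact Or.inl ⟨⟨h4, hi.1.2⟩, hi.2⟩
    · exact Or.inr ⟨by omega, hi.1.1⟩
  refine ⟨by exact_mod_cast h1, ?_⟩
  have h3 : (((goodP E x).filter Q).card : ℝ) ≤ ((goodP E y).filter Q).card + ((x - y : ℕ) : ℝ) := by
    exact_mod_cast h2
  rwa [Nat.cast_sub h] at h3

theorem mean_mono (E : WeierstrassCurve ℤ) (t : ℕ) {y x : ℕ} (h : y ≤ x) :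
    meanCount E t y ≤ meanCount E t x ∧ meanCount E t x ≤ meanCount E t y + ((x : ℝ) - y) := by
  unfold meanCount
  have h1 := filter_good_mono E (fun p : ℕ => t ∣ numPts E p ∧ Nat.Prime (numPts E p / t)) h
  have h2 := filter_good_mono E (fun p : ℕ => t ∣ 2 * p + 2 - numPts E p ∧
      Nat.Prime ((2 * p + 2 - numPts E p) / t)) h
  constructor <;> linarith [h1.1, h1.2, h2.1, h2.2]

/-- The difference of a twist and the mean changes slowly. -/
theorem diff_mono (E : WeierstrassCurve ℤ) (D : ℤ) (t : ℕ) {y x : ℕ} (h : y ≤ x) :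
    |(koblitzCount (quadTwist E D) t x : ℝ) - meanCount E t x| ≤
      |(koblitzCount (quadTwist E D) t y : ℝ) - meanCount E t y| + ((x : ℝ) - y) := by
  have h1 := koblitz_mono (quadTwist E D) t h
  have h2 := mean_mono E t h
  rw [abs_le]
  have h3 := abs_le.1 (le_refl |(koblitzCount (quadTwist E D) t y : ℝ) - meanCount E t y|)
  constructor <;> linarith [h1.1, h1.2, h2.1, h2.2, h3.1, h3.2]

/-- The statement of the grid lemma. -/
def GridLemma (A : ℕ) : Prop := ∃ x1 : ℕ, ∀ x L : ℕ, x1 ≤ x → (x : ℝ) ≤ Real.exp L →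
  ∃ j : ℕ, j ≤ L ^ (A + 3) ∧ ⌊Real.exp (j / (L : ℝ) ^ (A + 2))⌋₊ ≤ x ∧
    x ≤ 2 * ⌊Real.exp (j / (L : ℝ) ^ (A + 2))⌋₊ ∧
    (x : ℝ) - (⌊Real.exp (j / (L : ℝ) ^ (A + 2))⌋₊ : ℕ) ≤ x / (4 * (Real.log x) ^ A)

theorem pow_help {x y : ℕ} (hy : 512 ≤ y) (h : x ≤ 2 * y) : x ^ 9 ≤ y ^ 10 := by
  have h1 : x ^ 9 ≤ (2 * y) ^ 9 := Nat.pow_le_pow_left h 9
  have h2 : (2 * y) ^ 9 = 512 * y ^ 9 := by rw [mul_pow]; norm_num
  have h3 : 512 * y ^ 9 ≤ y * y ^ 9 := Nat.mul_le_mul_right _ hy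
  have h4 : y * y ^ 9 = y ^ 10 := (pow_succ' y 9).symm
  rw [h2] at h1
  rw [← h4]
  exact h1.trans h3

theorem natAbs_help {D : ℤ} {Y : ℕ} (h1 : -(Y : ℤ) ≤ D) (h2 : D ≤ Y) : D.natAbs ≤ Y := by omega

theorem half_help {a b x y : ℕ} (h1 : 2 * (a + b + 512) ≤ x) (h2 : x ≤ 2 * y) :
    a ≤ y ∧ b ≤ y ∧ 512 ≤ y := by omega

theorem rangeII (A y1 : ℕ) (hgrid : GridLemma A) : ∃ x1 : ℕ,
    ∀ (E : WeierstrassCurve ℤ) (x Y L : ℕ) (D : ℤ), x1 ≤ x → (x : ℝ) ≤ Real.exp L →
      1 ≤ Y → Y ≤ x ^ 9 → D ∈ badAt E A Y x →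
      ∃ j : ℕ, j ≤ L ^ (A + 3) ∧ y1 ≤ ⌊Real.exp (j / (L : ℝ) ^ (A + 2))⌋₊ ∧
        Y ≤ ⌊Real.exp (j / (L : ℝ) ^ (A + 2))⌋₊ ^ 10 ∧
        ⌊Real.exp (j / (L : ℝ) ^ (A + 2))⌋₊ ≤ x ∧
        D ∈ exc E A Y ⌊Real.exp (j / (L : ℝ) ^ (A + 2))⌋₊ := by
  classical
  obtain ⟨x1, hx1⟩ := hgrid
  obtain ⟨y2, hy2⟩ := ev_log (20 * 2 ^ (A + 1)) (A + 1)
  refine ⟨max x1 (2 * (y1 + y2 + 512)), ?_⟩
  intro E x Y L D hx hxL hY1 hY hD
  obtain ⟨j, hj, h1, h2, h3⟩ := hx1 x L (le_trans (le_max_left _ _) hx) hxL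
  refine ⟨j, hj, ?_⟩
  generalize ⌊Real.exp (j / (L : ℝ) ^ (A + 2))⌋₊ = y at h1 h2 h3 ⊢
  have hx' : 2 * (y1 + y2 + 512) ≤ x := le_trans (le_max_right _ _) hx
  obtain ⟨hya, hyb, hyc⟩ := half_help hx' h2
  refine ⟨hya, ?_, h1, ?_⟩
  · exact hY.trans (pow_help hyc h2)
  · unfold badAt at hD
    rw [mem_filter] at hD
    obtain ⟨hDI, hDs, t, ht⟩ := hD
    unfold exc
    rw [mem_filter]
    refine ⟨hDI, hDs, t, ?_⟩
    have hY10 : Y ≤ y ^ 10 := hY.trans (pow_help hyc h2)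
    have hy0 : (512 : ℝ) ≤ y := by exact_mod_cast hyc
    have hyx : (y : ℝ) ≤ x := by exact_mod_cast h1
    have hx2y : (x : ℝ) ≤ 2 * y := by exact_mod_cast h2
    have hlogy : 0 < Real.log y := Real.log_pos (by linarith)
    have hlogx : 0 < Real.log x := Real.log_pos (by linarith)
    have hlog2 : Real.log x ≤ 2 * Real.log y := by
      have h4 : (x : ℝ) ≤ (y : ℝ) ^ 2 := by nlinarith
      have h5 := Real.log_le_log (by linarith) h4
      rwa [Real.log_pow, Nat.cast_ofNat] at h5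
    have hLA : (Real.log x) ^ A ≤ 2 ^ A * (Real.log y) ^ A := by
      rw [← mul_pow]
      exact pow_le_pow_left₀ hlogx.le hlog2 A
    have hxA : 0 < (Real.log x) ^ A := pow_pos hlogx A
    have hyA : 0 < (Real.log y) ^ A := pow_pos hlogy A
    set V : ℝ := (y : ℝ) / (2 ^ (A + 1) * (Real.log y) ^ A) with hV
    have hV0 : 0 < V := by positivity
    -- lower bound for the difference at `x`
    have h4 : 2 * V ≤ x / (Real.log x) ^ A := by
      have e : 2 * V = (y : ℝ) / (2 ^ A * (Real.log y) ^ A) := by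
        rw [hV, pow_succ]; field_simp
      rw [e]
      exact div_le_div₀ (by linarith) hyx hxA hLA
    have h5 : (x : ℝ) / (4 * (Real.log x) ^ A) = (x / (Real.log x) ^ A) / 4 := by
      rw [div_div, mul_comm]
    have h6 := diff_mono E D t h1
    have h7 : 3 / 2 * V < |(koblitzCount (quadTwist E D) t y : ℝ) - meanCount E t y| := by
      rw [h5] at h3
      linarith
    have hD0 : D ≠ 0 := hDs.ne_zero
    have h8 := abs_sub_mean_le E hD0 t y
    have hDY : D.natAbs ≤ Y := by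
      rw [mem_Icc] at hDI
      exact natAbs_help hDI.1 hDI.2
    have h9 : (D.natAbs.primeFactors.card : ℝ) ≤ 20 * Real.log y := by
      have e1 : (D.natAbs.primeFactors.card : ℝ) ≤ (Nat.log 2 D.natAbs : ℝ) := by
        exact_mod_cast card_primeFactors_le _ (Int.natAbs_ne_zero.2 hD0)
      have e2 := natLog_le D.natAbs
      have e3 : (D.natAbs : ℝ) ≤ (y : ℝ) ^ 10 := by exact_mod_cast hDY.trans hY10
      have e4 := Real.log_le_log (by exact_mod_cast Int.natAbs_pos.2 hD0) e3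
      rw [Real.log_pow, Nat.cast_ofNat] at e4
      linarith
    have h10 : 20 * Real.log y ≤ V := by
      have e1 := hy2 y hyb
      rw [hV, le_div_iff₀ (by positivity)]
      calc 20 * Real.log y * (2 ^ (A + 1) * (Real.log y) ^ A) =
          20 * 2 ^ (A + 1) * (Real.log y) ^ (A + 1) := by ring
        _ ≤ y := e1
    have h11 : |(koblitzCount (quadTwist E D) t y : ℝ) - meanCount E t y| ≤
        |SS E t D y| / 2 + (D.natAbs.primeFactors.card : ℝ) := h8
    linarith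

open Classical in
/-- The twists which do not follow the mean at some `x` in `[x₀, e^L]`. -/
noncomputable def badUpTo (E : WeierstrassCurve ℤ) (A x0 Y L : ℕ) : Finset ℤ :=
  (Icc (-(Y : ℤ)) Y).filter (fun D => Squarefree D ∧ ∃ t x : ℕ, x0 ≤ x ∧
    (x : ℝ) ≤ Real.exp L ∧
    (x : ℝ) / (Real.log x) ^ A < |(koblitzCount (quadTwist E D) t x : ℝ) - meanCount E t x|)

/-- The statement of the first range. -/
def RangeI (A : ℕ) : Prop := ∃ C : ℕ, ∀ (E : WeierstrassCurve ℤ) (x Y : ℕ), 2 ≤ x → x ^ 9 ≤ Y →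
  ((badAt E A Y x).card : ℝ) ≤ C * ((Y : ℝ) / ((x : ℝ) * √x))

theorem law (A : ℕ) (hgrid : GridLemma A) (hI : RangeI A) : ∃ C m : ℕ,
    ∀ (E : WeierstrassCurve ℤ) (x0 Y L : ℕ), 2 ≤ x0 → 1 ≤ Y → 1 ≤ L →
      ((badUpTo E A x0 Y L).card : ℝ) ≤ C * ((Y : ℝ) / √x0 + (L : ℝ) ^ m) := by
  classical
  obtain ⟨C1, hC1⟩ := hI
  obtain ⟨C2, m2, y1, hC2⟩ := scale A 10
  obtain ⟨x1, hx1⟩ := rangeII A y1 hgrid
  refine ⟨4 * C1 + 2 * C2 + 3 * x1 ^ 9, A + 3 + m2, ?_⟩
  intro E x0 Y L hx0 hY hL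
  have hx0' : (0 : ℝ) < √x0 := Real.sqrt_pos.2 (by exact_mod_cast (by omega : 0 < x0))
  have hL1 : (1 : ℝ) ≤ L := by exact_mod_cast hL
  have hLm : (1 : ℝ) ≤ (L : ℝ) ^ (A + 3 + m2) := one_le_pow₀ hL1
  have hY0 : (0 : ℝ) ≤ (Y : ℝ) / √x0 := by positivity
  rcases lt_or_ge Y (x1 ^ 9) with hsmall | hlarge
  · have h1 : (badUpTo E A x0 Y L).card ≤ 2 * Y + 1 := by
      unfold badUpTo
      refine (Finset.card_filter_le _ _).trans ?_
      rw [Int.card_Icc]
      omega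
    have h2 : ((badUpTo E A x0 Y L).card : ℝ) ≤ 3 * (x1 : ℝ) ^ 9 := by
      have : (badUpTo E A x0 Y L).card ≤ 3 * x1 ^ 9 := by omega
      exact_mod_cast this
    have h3 : (3 * (x1 : ℝ) ^ 9) * 1 ≤ ((4 * C1 + 2 * C2 + 3 * x1 ^ 9 : ℕ) : ℝ) *
        ((Y : ℝ) / √x0 + (L : ℝ) ^ (A + 3 + m2)) := by
      refine mul_le_mul ?_ (by linarith) zero_le_one (by positivity)
      push_cast
      have : (0 : ℝ) ≤ 4 * C1 + 2 * C2 := by positivity
      linarith
    linarith
  · set yj : ℕ → ℕ := fun j => ⌊Real.exp (j / (L : ℝ) ^ (A + 2))⌋₊ with hyj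
    set X : Finset ℕ := (Icc x0 Y).filter (fun x => x ^ 9 ≤ Y) with hX
    set J : Finset ℕ := (range (L ^ (A + 3) + 1)).filter (fun j => y1 ≤ yj j ∧ Y ≤ yj j ^ 10 ∧
      ((yj j : ℕ) : ℝ) ≤ Real.exp L) with hJ
    have hsub : badUpTo E A x0 Y L ⊆ (X.biUnion fun x => badAt E A Y x) ∪
        (J.biUnion fun j => exc E A Y (yj j)) := by
      intro D hD
      unfold badUpTo at hD
      rw [mem_filter] at hD
      obtain ⟨hDI, hDs, t, x, hx, hxL, ht⟩ := hD
      have hbad : D ∈ badAt E A Y x := by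
        unfold badAt
        rw [mem_filter]
        exact ⟨hDI, hDs, t, ht⟩
      rw [mem_union, mem_biUnion, mem_biUnion]
      rcases le_or_gt (x ^ 9) Y with h9 | h9
      · left
        refine ⟨x, ?_, hbad⟩
        rw [hX, mem_filter, mem_Icc]
        refine ⟨⟨hx, ?_⟩, h9⟩
        exact (Nat.le_self_pow (by norm_num) x).trans h9
      · right
        have hxx : x1 ≤ x := by
          by_contra hcon
          have := Nat.pow_lt_pow_left (not_le.1 hcon) (by norm_num : (9 : ℕ) ≠ 0)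
          omega
        obtain ⟨j, hj1, hj2, hj3, hj4, hj5⟩ := hx1 E x Y L D hxx hxL hY h9.le hbad
        refine ⟨j, ?_, hj5⟩
        rw [hJ, mem_filter, mem_range]
        refine ⟨by omega, hj2, hj3, ?_⟩
        exact (Nat.cast_le.2 hj4).trans hxL
    have hcard : ((badUpTo E A x0 Y L).card : ℝ) ≤ ∑ x ∈ X, ((badAt E A Y x).card : ℝ) +
        ∑ j ∈ J, ((exc E A Y (yj j)).card : ℝ) := by
      have h1 := (Finset.card_le_card hsub).trans (Finset.card_union_le _ _)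
      have h2 := h1.trans (add_le_add (Finset.card_biUnion_le (s := X) (t := fun x => badAt E A Y x))
        (Finset.card_biUnion_le (s := J) (t := fun j => exc E A Y (yj j))))
      exact_mod_cast h2
    have hfirst : ∑ x ∈ X, ((badAt E A Y x).card : ℝ) ≤ 4 * C1 * ((Y : ℝ) / √x0) := by
      calc ∑ x ∈ X, ((badAt E A Y x).card : ℝ) ≤ ∑ x ∈ X, C1 * ((Y : ℝ) / ((x : ℝ) * √x)) := by
            refine Finset.sum_le_sum fun x hx => ?_
            rw [hX, mem_filter, mem_Icc] at hx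
            exact hC1 E x Y (by omega) hx.2
        _ ≤ ∑ x ∈ Icc x0 Y, C1 * ((Y : ℝ) / ((x : ℝ) * √x)) := by
            refine Finset.sum_le_sum_of_subset_of_nonneg (Finset.filter_subset _ _) ?_
            intro i _ _
            positivity
        _ = (C1 * Y) * ∑ x ∈ Icc x0 Y, 1 / ((x : ℝ) * √x) := by
            rw [Finset.mul_sum]
            refine Finset.sum_congr rfl fun x _ => ?_
            ring
        _ ≤ (C1 * Y) * (4 / √x0) :=
            mul_le_mul_of_nonneg_left (sum_tail x0 Y hx0) (by positivity)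
        _ = 4 * C1 * ((Y : ℝ) / √x0) := by ring
    have hsecond : ∑ j ∈ J, ((exc E A Y (yj j)).card : ℝ) ≤ 2 * C2 * (L : ℝ) ^ (A + 3 + m2) := by
      calc ∑ j ∈ J, ((exc E A Y (yj j)).card : ℝ) ≤ ∑ j ∈ J, (C2 : ℝ) * (L : ℝ) ^ m2 := by
            refine Finset.sum_le_sum fun j hj => ?_
            rw [hJ, mem_filter] at hj
            obtain ⟨-, h1, h2, h3⟩ := hj
            refine (hC2 E (yj j) Y h1 h2).trans ?_
            refine mul_le_mul_of_nonneg_left ?_ (Nat.cast_nonneg _)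
            refine pow_le_pow_left₀ (Real.log_natCast_nonneg _) ?_ m2
            rcases Nat.eq_zero_or_pos (yj j) with h0 | h0
            · rw [h0]; simp
            · have := Real.log_le_log (by exact_mod_cast h0) h3
              rwa [Real.log_exp] at this
        _ = (J.card : ℝ) * ((C2 : ℝ) * (L : ℝ) ^ m2) := by rw [Finset.sum_const, nsmul_eq_mul]
        _ ≤ (2 * (L : ℝ) ^ (A + 3)) * ((C2 : ℝ) * (L : ℝ) ^ m2) := by
            refine mul_le_mul_of_nonneg_right ?_ (by positivity)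
            have h1 : J.card ≤ L ^ (A + 3) + 1 := by
              refine (Finset.card_filter_le _ _).trans ?_
              rw [Finset.card_range]
            have h2 : (J.card : ℝ) ≤ (L : ℝ) ^ (A + 3) + 1 := by exact_mod_cast h1
            have h3 : (1 : ℝ) ≤ (L : ℝ) ^ (A + 3) := one_le_pow₀ hL1
            linarith
        _ = 2 * C2 * (L : ℝ) ^ (A + 3 + m2) := by ring
    have hfin : 4 * C1 * ((Y : ℝ) / √x0) + 2 * C2 * (L : ℝ) ^ (A + 3 + m2) ≤
        ((4 * C1 + 2 * C2 + 3 * x1 ^ 9 : ℕ) : ℝ) * ((Y : ℝ) / √x0 + (L : ℝ) ^ (A + 3 + m2)) := by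
      push_cast
      have e1 : (0 : ℝ) ≤ C1 := Nat.cast_nonneg _
      have e2 : (0 : ℝ) ≤ C2 := Nat.cast_nonneg _
      have e3 : (0 : ℝ) ≤ (x1 : ℝ) ^ 9 := by positivity
      have e4 : (0 : ℝ) ≤ (L : ℝ) ^ (A + 3 + m2) := by linarith
      nlinarith [mul_nonneg e2 hY0, mul_nonneg e3 hY0, mul_nonneg e1 e4, mul_nonneg e3 e4]
    linarith

end Pool.Agent.Helper70.TW
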