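import Pool.Agent.Helper70.TW.Fin

set_option autoImplicit false

/-!
# Frequencies of units
-/

namespace Pool.Agent.Helper70.TW

open Finset Pool.Agent.Helper28.Koblitz

open Classical in
/-- The mean over the two twists of the frequency of the primes `p ≤ x` with
`|E(𝔽_p)| ∈ t · (ℤ/M)ˣ`. -/
noncomputable def meanFreq (E : WeierstrassCurve ℤ) (t M x : ℕ) : ℝ :=
  ((((goodP E x).filter (fun p : ℕ => ∃ u : ZMod M, IsUnit u ∧
      ((numPts E p : ℕ) : ZMod M) = (t : ZMod M) * u)).card : ℝ) +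
    (((goodP E x).filter (fun p : ℕ => ∃ u : ZMod M, IsUnit u ∧
      ((2 * p + 2 - numPts E p : ℕ) : ZMod M) = (t : ZMod M) * u)).card : ℝ)) /
    (2 * (((Finset.range (x + 1)).filter Nat.Prime).card : ℝ))

open Classical in
/-- The twists for which the frequency is not near the mean at some `x` in `[x₀, e^L]`. -/
noncomputable def badFreq (E : WeierstrassCurve ℤ) (A t M x0 Y L : ℕ) : Finset ℤ :=
  (Icc (-(Y : ℤ)) Y).filter (fun D => Squarefree D ∧ ∃ x : ℕ, x0 ≤ x ∧
    (x : ℝ) ≤ Real.exp L ∧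
    1 / (Real.log x) ^ A < |unitFreq (quadTwist E D) t M x - meanFreq E t M x|)

end Pool.Agent.Helper70.TW
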