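import Pool.Agent.Helper70.TW.Fin
import Pool.Agent.Helper16.TL.Six
import Pool.Agent.Helper37.TL.Om
import Pool.Agent.Helper37.TL.Grid

set_option autoImplicit false

/-!
# The first range `x ^ 9 ≤ Y`
-/

namespace Pool.Agent.Helper70.TW

open Finset Pool.Agent.Helper28.Koblitz

theorem rangeI_one_t (E : WeierstrassCurve ℤ) (t x Y : ℕ) (hx : 2 ≤ x) (hxY : x ^ 9 ≤ Y) (V : ℝ)
    (hV : 0 ≤ V) :
    ((((Icc (-(Y : ℤ)) Y).filter (fun D => V ≤ |SS E t D x|)).card : ℕ) : ℝ) * V ^ 6 ≤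
      2188 * (Y : ℝ) * (x : ℝ) ^ 3 := by
  classical
  have h := Pool.Agent.Helper16.TL.sixth x Y (goodP E x)
    (fun p hp => by
      obtain ⟨h1, h2, -, -, h5, -⟩ := goodP_mem hp
      exact ⟨h2, h5, h1⟩) (cf E t) (fun p _ => cf_abs E t p)
  have h1 : ((((Icc (-(Y : ℤ)) Y).filter (fun D => V ≤ |SS E t D x|)).card : ℕ) : ℝ) * V ^ 6 ≤
      ∑ D ∈ Icc (-(Y : ℤ)) Y, (SS E t D x) ^ 6 := by
    rw [← nsmul_eq_mul, ← Finset.sum_const]
    refine (Finset.sum_le_sum (g := fun D => (SS E t D x) ^ 6) ?_).trans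
      (Finset.sum_le_sum_of_subset_of_nonneg (Finset.filter_subset _ _) ?_)
    · intro D hD
      rw [mem_filter] at hD
      have h2 := pow_le_pow_left₀ hV hD.2 6
      have h3 : |SS E t D x| ^ 6 = (SS E t D x) ^ 6 := by
        rw [show (6 : ℕ) = 2 * 3 by norm_num, pow_mul, pow_mul, sq_abs]
      rwa [h3] at h2
    · intro D _ _
      positivity
  refine h1.trans (h.trans ?_)
  have hx1 : (1 : ℝ) ≤ x := by exact_mod_cast (by omega : 1 ≤ x)
  have hY1 : (1 : ℝ) ≤ Y := by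
    have : 1 ≤ Y := le_trans (Nat.one_le_pow _ _ (by omega)) hxY
    exact_mod_cast this
  have h9 : (x : ℝ) ^ 9 ≤ Y := by exact_mod_cast hxY
  have h12 : (x : ℝ) ^ 12 ≤ Y * (x : ℝ) ^ 3 := by
    have e : (x : ℝ) ^ 12 = (x : ℝ) ^ 9 * (x : ℝ) ^ 3 := by rw [← pow_add]
    rw [e]
    exact mul_le_mul_of_nonneg_right h9 (by positivity)
  have h3 : (0 : ℝ) ≤ (x : ℝ) ^ 3 := by positivity
  nlinarith [mul_nonneg (by linarith : (0 : ℝ) ≤ Y - 1) h3]

theorem rangeI (A : ℕ) : RangeI A := by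
  classical
  obtain ⟨K, hK0, hK⟩ := log_pow_le (6 * A + 2)
  refine ⟨⌈(8752 + 16) * K⌉₊, ?_⟩
  intro E x Y hx hxY
  have hx1 : (1 : ℝ) ≤ x := by exact_mod_cast (by omega : 1 ≤ x)
  have hx2 : (2 : ℝ) ≤ x := by exact_mod_cast hx
  have hx0 : (0 : ℝ) < x := by linarith
  have hlog : 0 < Real.log x := Real.log_pos (by linarith)
  set W : ℝ := (Real.log x) ^ A with hW
  have hW0 : 0 < W := by positivity
  set V : ℝ := (x : ℝ) / W with hV
  have hV0 : 0 < V := by positivity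
  let DD : ℕ → Finset ℤ := fun t => (Icc (-(Y : ℤ)) Y).filter (fun D => V ≤ |SS E t D x|)
  let FF : Finset ℤ := (Icc (-(Y : ℤ)) Y).filter (fun D => D ≠ 0 ∧
    V / 2 < ((((goodP E x).filter (fun p : ℕ => (p : ℤ) ∣ D)).card : ℕ) : ℝ))
  have hsub : badAt E A Y x ⊆ (range (2 * x + 3)).biUnion DD ∪ FF := by
    intro D hD
    unfold badAt at hD
    rw [mem_filter] at hD
    obtain ⟨hDI, hDs, t, ht⟩ := hD
    have h1 := abs_sub_mean_le' E D t x
    rw [mem_union, mem_biUnion]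
    by_cases hF : V / 2 < ((((goodP E x).filter (fun p : ℕ => (p : ℤ) ∣ D)).card : ℕ) : ℝ)
    · right
      rw [mem_filter]
      exact ⟨hDI, hDs.ne_zero, hF⟩
    · left
      rw [not_lt] at hF
      have h2 : V ≤ |SS E t D x| := by
        have h3 : |(koblitzCount (quadTwist E D) t x : ℝ) - meanCount E t x| ≤
          |SS E t D x| / 2 + (((goodP E x).filter (fun p : ℕ => (p : ℤ) ∣ D)).card : ℝ) := h1
        linarith
      refine ⟨t, ?_, ?_⟩
      · rw [mem_range]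
        by_contra hcon
        rw [SS_eq_zero E D (by omega : 2 * x + 2 < t), abs_zero] at h2
        linarith
      · rw [mem_filter]
        exact ⟨hDI, h2⟩
  have hcard : ((badAt E A Y x).card : ℝ) ≤ ∑ t ∈ range (2 * x + 3), ((DD t).card : ℝ) +
      (FF.card : ℝ) := by
    have h1 := (Finset.card_le_card hsub).trans (Finset.card_union_le _ _)
    have h2 := h1.trans (add_le_add_left (Finset.card_biUnion_le (s := range (2 * x + 3)) (t := DD)) FF.card)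
    exact_mod_cast h2
  -- the character sums
  have hone : ∀ t, ((DD t).card : ℝ) ≤ 2188 * (Y : ℝ) * W ^ 6 / (x : ℝ) ^ 3 := by
    intro t
    have h1 := rangeI_one_t E t x Y hx hxY V hV0.le
    rw [le_div_iff₀ (by positivity)]
    have e : V ^ 6 * W ^ 6 = (x : ℝ) ^ 6 := by
      rw [← mul_pow, hV, div_mul_cancel₀ _ hW0.ne']
    have h2 : ((DD t).card : ℝ) * (x : ℝ) ^ 6 ≤ 2188 * (Y : ℝ) * (x : ℝ) ^ 3 * W ^ 6 := by
      rw [← e]
      calc ((DD t).card : ℝ) * (V ^ 6 * W ^ 6) = ((DD t).card : ℝ) * V ^ 6 * W ^ 6 := by ring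
        _ ≤ 2188 * (Y : ℝ) * (x : ℝ) ^ 3 * W ^ 6 :=
          mul_le_mul_of_nonneg_right h1 (by positivity)
    have h3 : (((DD t).card : ℝ) * (x : ℝ) ^ 3) * (x : ℝ) ^ 3 ≤
        (2188 * (Y : ℝ) * W ^ 6) * (x : ℝ) ^ 3 := by
      calc _ = ((DD t).card : ℝ) * (x : ℝ) ^ 6 := by ring
        _ ≤ _ := h2
        _ = _ := by ring
    exact le_of_mul_le_mul_right h3 (by positivity)
  have hfirst : ∑ t ∈ range (2 * x + 3), ((DD t).card : ℝ) ≤
      8752 * (Y : ℝ) * W ^ 6 / (x : ℝ) ^ 2 := by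
    refine (Finset.sum_le_sum fun t _ => hone t).trans ?_
    rw [Finset.sum_const, card_range, nsmul_eq_mul]
    have h1 : ((2 * x + 3 : ℕ) : ℝ) ≤ 4 * x := by push_cast; linarith
    have h2 : (0 : ℝ) ≤ 2188 * (Y : ℝ) * W ^ 6 / (x : ℝ) ^ 3 := by positivity
    calc ((2 * x + 3 : ℕ) : ℝ) * (2188 * (Y : ℝ) * W ^ 6 / (x : ℝ) ^ 3) ≤
        (4 * x) * (2188 * (Y : ℝ) * W ^ 6 / (x : ℝ) ^ 3) := mul_le_mul_of_nonneg_right h1 h2
      _ = 8752 * (Y : ℝ) * W ^ 6 / (x : ℝ) ^ 2 := by field_simp; ring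
  -- the divisors
  have hsecond : (FF.card : ℝ) ≤ 8 * (Y : ℝ) * ((1 + Real.log x) ^ 2 + (1 + Real.log x)) * W ^ 2 /
      (x : ℝ) ^ 2 := by
    have h1 := Pool.Agent.Helper37.TL.omega_sq x Y (goodP E x)
      (fun p hp => by
        obtain ⟨h1, h2, -⟩ := goodP_mem hp
        exact ⟨h2, h1⟩) (V / 2) (by positivity)
    rw [le_div_iff₀ (by positivity)]
    have e : (V / 2) ^ 2 * (4 * W ^ 2) = (x : ℝ) ^ 2 := by
      rw [hV, div_div, div_pow, mul_pow, div_mul_eq_mul_div, div_eq_iff (by positivity)]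
      ring
    have h2 : (FF.card : ℝ) * ((V / 2) ^ 2) ≤ 2 * (Y : ℝ) * ((1 + Real.log x) ^ 2 +
      (1 + Real.log x)) := by
      convert h1 using 2
    rw [← e]
    calc (FF.card : ℝ) * ((V / 2) ^ 2 * (4 * W ^ 2)) = (FF.card : ℝ) * ((V / 2) ^ 2) * (4 * W ^ 2) := by ring
      _ ≤ 2 * (Y : ℝ) * ((1 + Real.log x) ^ 2 + (1 + Real.log x)) * (4 * W ^ 2) :=
        mul_le_mul_of_nonneg_right h2 (by positivity)
      _ = _ := by ring
  -- logarithms
  have hL1 : (1 : ℝ) ≤ 1 + Real.log x := by linarith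
  have hW6 : W ^ 6 ≤ (1 + Real.log x) ^ (6 * A + 2) := by
    calc W ^ 6 = (Real.log x) ^ (6 * A) := by rw [hW, ← pow_mul, mul_comm]
      _ ≤ (1 + Real.log x) ^ (6 * A) := pow_le_pow_left₀ hlog.le (by linarith) _
      _ ≤ (1 + Real.log x) ^ (6 * A + 2) := pow_le_pow_right₀ hL1 (by omega)
  have hW2 : ((1 + Real.log x) ^ 2 + (1 + Real.log x)) * W ^ 2 ≤ 2 * (1 + Real.log x) ^ (6 * A + 2) := by
    have h1 : (1 + Real.log x) ^ 2 + (1 + Real.log x) ≤ 2 * (1 + Real.log x) ^ 2 := by nlinarith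
    have h2 : W ^ 2 ≤ (1 + Real.log x) ^ (2 * A) := by
      calc W ^ 2 = (Real.log x) ^ (2 * A) := by rw [hW, ← pow_mul, mul_comm]
        _ ≤ (1 + Real.log x) ^ (2 * A) := pow_le_pow_left₀ hlog.le (by linarith) _
    calc ((1 + Real.log x) ^ 2 + (1 + Real.log x)) * W ^ 2 ≤
        (2 * (1 + Real.log x) ^ 2) * (1 + Real.log x) ^ (2 * A) :=
          mul_le_mul h1 h2 (by positivity) (by positivity)
      _ = 2 * (1 + Real.log x) ^ (2 * A + 2) := by ring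
      _ ≤ 2 * (1 + Real.log x) ^ (6 * A + 2) :=
          mul_le_mul_of_nonneg_left (pow_le_pow_right₀ hL1 (by omega)) (by norm_num)
  have hKx := hK x hx1
  have hY0 : (0 : ℝ) ≤ Y := Nat.cast_nonneg _
  have htot : ((badAt E A Y x).card : ℝ) ≤ (8752 + 16) * (Y : ℝ) * (1 + Real.log x) ^ (6 * A + 2) /
      (x : ℝ) ^ 2 := by
    refine hcard.trans ((add_le_add hfirst hsecond).trans ?_)
    rw [← add_div]
    refine div_le_div_of_nonneg_right ?_ (by positivity)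
    have e1 : 8752 * (Y : ℝ) * W ^ 6 ≤ 8752 * (Y : ℝ) * (1 + Real.log x) ^ (6 * A + 2) :=
      mul_le_mul_of_nonneg_left hW6 (by positivity)
    have e2 : 8 * (Y : ℝ) * ((1 + Real.log x) ^ 2 + (1 + Real.log x)) * W ^ 2 ≤
        8 * (Y : ℝ) * (2 * (1 + Real.log x) ^ (6 * A + 2)) := by
      rw [mul_assoc]
      exact mul_le_mul_of_nonneg_left hW2 (by positivity)
    linarith
  refine htot.trans ?_
  have hsq : √(x : ℝ) * √x = x := Real.mul_self_sqrt hx0.le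
  have hs0 : 0 < √(x : ℝ) := Real.sqrt_pos.2 hx0
  have hKY : (8752 + 16) * (Y : ℝ) * (1 + Real.log x) ^ (6 * A + 2) / (x : ℝ) ^ 2 ≤
      (8752 + 16) * (Y : ℝ) * (K * √x) / (x : ℝ) ^ 2 := by
    refine div_le_div_of_nonneg_right ?_ (by positivity)
    exact mul_le_mul_of_nonneg_left hKx (by positivity)
  have heq : (8752 + 16) * (Y : ℝ) * (K * √x) / (x : ℝ) ^ 2 =
      ((8752 + 16) * K) * ((Y : ℝ) / ((x : ℝ) * √x)) := by
    have e : (x : ℝ) ^ 2 = (x : ℝ) * √x * √x := by rw [mul_assoc, hsq, sq]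
    rw [e]
    field_simp
  rw [heq] at hKY
  refine hKY.trans ?_
  exact mul_le_mul_of_nonneg_right (Nat.le_ceil _) (by positivity)

/-- The law without hypotheses. -/
theorem law' (A : ℕ) : ∃ C m : ℕ,
    ∀ (E : WeierstrassCurve ℤ) (x0 Y L : ℕ), 2 ≤ x0 → 1 ≤ Y → 1 ≤ L →
      ((badUpTo E A x0 Y L).card : ℝ) ≤ C * ((Y : ℝ) / √x0 + (L : ℝ) ^ m) :=
  law A (Pool.Agent.Helper37.TL.grid A) (rangeI A)

end Pool.Agent.Helper70.TW
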