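import Pool.Agent.Helper70.TW.Abs
import Pool.Agent.Helper70.TW.Freq

set_option autoImplicit false

/-!
# The zero-one law for the refined conjecture
-/

namespace Pool.Agent.Helper70.TW

open Finset Filter Pool.Agent.Helper28.Koblitz

/-- `∏_{ℓ ≤ n} (1 - 1/ℓ)`, as in the frozen statement. -/
noncomputable def eul (n : ℕ) : ℝ := ∏ ℓ ∈ (Nat.factorial n).primeFactors, (1 - 1 / (ℓ : ℝ))

theorem eul_pos (n : ℕ) : 0 < eul n := by
  unfold eul
  refine Finset.prod_pos fun ℓ hℓ => ?_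
  have h1 : (1 : ℝ) < ℓ := by exact_mod_cast (Nat.prime_of_mem_primeFactors hℓ).one_lt
  have h2 : 1 / (ℓ : ℝ) < 1 := by
    rw [div_lt_one (by linarith)]
    exact h1
  linarith

/-- The same for the means. -/
noncomputable def meanDefect (E : WeierstrassCurve ℤ) (t n x : ℕ) : ℝ :=
  meanCount E t x / ((x : ℝ) / (Real.log x) ^ 2) -
    meanFreq E t (Nat.factorial n) x / ∏ ℓ ∈ (Nat.factorial n).primeFactors, (1 - 1 / (ℓ : ℝ))

/-- The refined Koblitz conjecture for `(E, t)` at finite levels. -/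
def FiniteLevel (E : WeierstrassCurve ℤ) (t : ℕ) : Prop :=
  ∀ ε : ℝ, 0 < ε → ∃ n0 : ℕ, ∀ n : ℕ, n0 ≤ n → ∃ x0 : ℕ, ∀ x : ℕ, x0 ≤ x → |defect E t n x| ≤ ε

/-- (i) the mean form. -/
def MeanRefined (E : WeierstrassCurve ℤ) (t : ℕ) : Prop :=
  ∀ ε : ℝ, 0 < ε → ∃ n0 : ℕ, ∀ n : ℕ, n0 ≤ n → ∃ x0 : ℕ, ∀ x : ℕ, x0 ≤ x →
    |meanDefect E t n x| ≤ ε

/-- If the densities and the constant exist, `FiniteLevel` is the refined Koblitz conjecture. -/
theorem finiteLevel_iff (E : WeierstrassCurve ℤ) (t : ℕ) (δ : ℕ → ℝ) (C : ℝ)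
    (hδ : ∀ m : ℕ, 0 < m → Tendsto (fun x : ℕ => unitFreq E t m x) atTop (nhds (δ m)))
    (hC : Tendsto (fun n : ℕ => δ (Nat.factorial n) /
        ∏ ℓ ∈ (Nat.factorial n).primeFactors, (1 - 1 / (ℓ : ℝ))) atTop (nhds C)) :
    Tendsto (fun x : ℕ => (koblitzCount E t x : ℝ) / ((x : ℝ) / (Real.log x) ^ 2)) atTop (nhds C) ↔
      FiniteLevel E t := by
  have hdiv : ∀ n : ℕ, Tendsto (fun x : ℕ => unitFreq E t (Nat.factorial n) x /
      ∏ ℓ ∈ (Nat.factorial n).primeFactors, (1 - 1 / (ℓ : ℝ))) atTop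
      (nhds (δ (Nat.factorial n) / ∏ ℓ ∈ (Nat.factorial n).primeFactors, (1 - 1 / (ℓ : ℝ)))) :=
    fun n => (hδ _ (Nat.factorial_pos n)).div_const _
  constructor
  · intro h ε hε
    obtain ⟨n0, hn0⟩ := (Metric.tendsto_atTop.1 hC) (ε / 3) (by positivity)
    refine ⟨n0, fun n hn => ?_⟩
    obtain ⟨x1, hx1⟩ := (Metric.tendsto_atTop.1 h) (ε / 3) (by positivity)
    obtain ⟨x2, hx2⟩ := (Metric.tendsto_atTop.1 (hdiv n)) (ε / 3) (by positivity)
    refine ⟨max x1 x2, fun x hx => ?_⟩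
    have h1 := hx1 x (le_trans (le_max_left _ _) hx)
    have h2 := hx2 x (le_trans (le_max_right _ _) hx)
    have h3 := hn0 n hn
    rw [Real.dist_eq] at h1 h2 h3
    unfold defect
    rw [abs_lt] at h1 h2 h3
    rw [abs_le]
    constructor <;> linarith [h1.1, h1.2, h2.1, h2.2, h3.1, h3.2]
  · intro h
    rw [Metric.tendsto_atTop]
    intro ε hε
    obtain ⟨n0, hn0⟩ := h (ε / 4) (by positivity)
    obtain ⟨n1, hn1⟩ := (Metric.tendsto_atTop.1 hC) (ε / 4) (by positivity)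
    set n : ℕ := max n0 n1 with hn
    obtain ⟨x1, hx1⟩ := hn0 n (le_max_left _ _)
    obtain ⟨x2, hx2⟩ := (Metric.tendsto_atTop.1 (hdiv n)) (ε / 4) (by positivity)
    refine ⟨max x1 x2, fun x hx => ?_⟩
    have h1 := hx1 x (le_trans (le_max_left _ _) hx)
    have h2 := hx2 x (le_trans (le_max_right _ _) hx)
    have h3 := hn1 n (le_max_right _ _)
    rw [Real.dist_eq] at h2 h3 ⊢
    unfold defect at h1
    rw [abs_lt] at h2 h3 ⊢
    rw [abs_le] at h1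
    constructor <;> linarith [h1.1, h1.2, h2.1, h2.2, h3.1, h3.2]

/-- The statement of the law for the frequencies. -/
def FreqLaw (A K : ℕ) : Prop := ∃ (C : ℝ) (m : ℕ), ∀ (E : WeierstrassCurve ℤ) (t M x0 Y L : ℕ),
  2 ≤ x0 → 1 ≤ Y → 1 ≤ L →
  ((badFreq E A t M x0 Y L).card : ℝ) ≤ C * ((Y : ℝ) / (x0 : ℝ) ^ K + (L : ℝ) ^ m)

/-- The statement of the law for the counts. -/
def CountLaw (A K : ℕ) : Prop := ∃ (C : ℝ) (m : ℕ), ∀ (E : WeierstrassCurve ℤ) (x0 Y L : ℕ),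
  2 ≤ x0 → 1 ≤ Y → 1 ≤ L →
  ((badUpTo E A x0 Y L).card : ℝ) ≤ C * ((Y : ℝ) / (x0 : ℝ) ^ K + (L : ℝ) ^ m)

theorem defect_law (K : ℕ) (h1 : CountLaw 3 K) (h2 : FreqLaw 1 K) : ∃ C m : ℕ,
    ∀ (E : WeierstrassCurve ℤ) (t n : ℕ),
      Law K C m (fun D x => defect (quadTwist E D) t n x) (fun x => meanDefect E t n x) := by
  classical
  obtain ⟨C1, m1, h1⟩ := h1
  obtain ⟨C2, m2, h2⟩ := h2
  refine ⟨⌈C1⌉₊ + ⌈C2⌉₊, max m1 m2, ?_⟩
  intro E t n η hη
  have hP := eul_pos n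
  obtain ⟨x1, hx1, hx1'⟩ := exists_log_ge ((1 + 1 / eul n) / η)
  refine ⟨x1, fun x0 Y L hx0 hY hL => ?_⟩
  have hL1 : (1 : ℝ) ≤ L := by exact_mod_cast hL
  have hb1 := h1 E x0 Y L (by omega) hY hL
  have hb2 := h2 E t (Nat.factorial n) x0 Y L (by omega) hY hL
  have hsub : sel Y (fun D => ∃ x : ℕ, x0 ≤ x ∧ (x : ℝ) ≤ Real.exp L ∧
      η < |defect (quadTwist E D) t n x - meanDefect E t n x|) ⊆
      badUpTo E 3 x0 Y L ∪ badFreq E 1 t (Nat.factorial n) x0 Y L := by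
    intro D hD
    unfold sel at hD
    rw [mem_filter] at hD
    obtain ⟨hDs, x, h3, h4, h5⟩ := hD
    unfold sqf at hDs
    rw [mem_filter] at hDs
    rw [mem_union]
    by_contra hcon
    rw [not_or] at hcon
    obtain ⟨hc1, hc2⟩ := hcon
    have hxge : 2 ≤ x := by omega
    have hxR : (1 : ℝ) < x := by exact_mod_cast (by omega : 1 < x)
    have hlog := Real.log_pos hxR
    have e1 : |(koblitzCount (quadTwist E D) t x : ℝ) - meanCount E t x| ≤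
        (x : ℝ) / (Real.log x) ^ 3 := by
      by_contra hcon
      rw [not_le] at hcon
      apply hc1
      unfold badUpTo
      rw [mem_filter]
      exact ⟨hDs.1, hDs.2, t, x, h3, h4, hcon⟩
    have e2 : |unitFreq (quadTwist E D) t (Nat.factorial n) x -
        meanFreq E t (Nat.factorial n) x| ≤ 1 / (Real.log x) ^ 1 := by
      by_contra hcon
      rw [not_le] at hcon
      apply hc2
      unfold badFreq
      rw [mem_filter]
      exact ⟨hDs.1, hDs.2, x, h3, h4, hcon⟩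
    rw [pow_one] at e2
    have hg : 0 < (x : ℝ) / (Real.log x) ^ 2 := by positivity
    have e3 : defect (quadTwist E D) t n x - meanDefect E t n x =
        ((koblitzCount (quadTwist E D) t x : ℝ) - meanCount E t x) / ((x : ℝ) / (Real.log x) ^ 2) +
        -((unitFreq (quadTwist E D) t (Nat.factorial n) x -
          meanFreq E t (Nat.factorial n) x) / eul n) := by
      unfold defect meanDefect eul
      ring
    have e4 : |((koblitzCount (quadTwist E D) t x : ℝ) - meanCount E t x) /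
        ((x : ℝ) / (Real.log x) ^ 2)| ≤ 1 / Real.log x := by
      rw [abs_div, abs_of_pos hg, div_le_iff₀ hg]
      refine e1.trans (le_of_eq ?_)
      field_simp
    have e5 : |(unitFreq (quadTwist E D) t (Nat.factorial n) x -
          meanFreq E t (Nat.factorial n) x) / eul n| ≤ (1 / eul n) * (1 / Real.log x) := by
      rw [abs_div, abs_of_pos hP, div_le_iff₀ hP]
      refine e2.trans (le_of_eq ?_)
      field_simp
    have e6 : (1 + 1 / eul n) * (1 / Real.log x) ≤ η := by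
      have h6 := hx1' x (by omega)
      rw [div_le_iff₀ hη] at h6
      rw [mul_one_div, div_le_iff₀ hlog]
      linarith
    have e7 : |defect (quadTwist E D) t n x - meanDefect E t n x| ≤ η := by
      rw [e3]
      refine (abs_add_le _ _).trans ?_
      rw [abs_neg]
      linarith
    linarith
  have hcard : ((sel Y (fun D => ∃ x : ℕ, x0 ≤ x ∧ (x : ℝ) ≤ Real.exp L ∧
      η < |defect (quadTwist E D) t n x - meanDefect E t n x|)).card : ℝ) ≤
      ((badUpTo E 3 x0 Y L).card : ℝ) + ((badFreq E 1 t (Nat.factorial n) x0 Y L).card : ℝ) := by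
    exact_mod_cast (Finset.card_le_card hsub).trans (Finset.card_union_le _ _)
  refine hcard.trans ((add_le_add hb1 hb2).trans ?_)
  have hY0 : (0 : ℝ) ≤ (Y : ℝ) / (x0 : ℝ) ^ K := by positivity
  have hm1 : (L : ℝ) ^ m1 ≤ (L : ℝ) ^ (max m1 m2) := pow_le_pow_right₀ hL1 (le_max_left _ _)
  have hm2 : (L : ℝ) ^ m2 ≤ (L : ℝ) ^ (max m1 m2) := pow_le_pow_right₀ hL1 (le_max_right _ _)
  have hn1 : (0 : ℝ) ≤ (L : ℝ) ^ m1 := by positivity
  have hn2 : (0 : ℝ) ≤ (L : ℝ) ^ m2 := by positivity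
  have g1 : C1 * ((Y : ℝ) / (x0 : ℝ) ^ K + (L : ℝ) ^ m1) ≤
      (⌈C1⌉₊ : ℝ) * ((Y : ℝ) / (x0 : ℝ) ^ K + (L : ℝ) ^ (max m1 m2)) := by
    have := mul_le_mul_of_nonneg_right (Nat.le_ceil C1) (by linarith :
      (0 : ℝ) ≤ (Y : ℝ) / (x0 : ℝ) ^ K + (L : ℝ) ^ m1)
    have h' := mul_le_mul_of_nonneg_left (by linarith : (Y : ℝ) / (x0 : ℝ) ^ K + (L : ℝ) ^ m1 ≤
      (Y : ℝ) / (x0 : ℝ) ^ K + (L : ℝ) ^ (max m1 m2)) (Nat.cast_nonneg (α := ℝ) ⌈C1⌉₊)
    linarith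
  have g2 : C2 * ((Y : ℝ) / (x0 : ℝ) ^ K + (L : ℝ) ^ m2) ≤
      (⌈C2⌉₊ : ℝ) * ((Y : ℝ) / (x0 : ℝ) ^ K + (L : ℝ) ^ (max m1 m2)) := by
    have := mul_le_mul_of_nonneg_right (Nat.le_ceil C2) (by linarith :
      (0 : ℝ) ≤ (Y : ℝ) / (x0 : ℝ) ^ K + (L : ℝ) ^ m2)
    have h' := mul_le_mul_of_nonneg_left (by linarith : (Y : ℝ) / (x0 : ℝ) ^ K + (L : ℝ) ^ m2 ≤
      (Y : ℝ) / (x0 : ℝ) ^ K + (L : ℝ) ^ (max m1 m2)) (Nat.cast_nonneg (α := ℝ) ⌈C2⌉₊)
    linarith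
  push_cast
  rw [add_mul]
  linarith

/-- The zero-one law for the refined conjecture. -/
theorem refined_equiv (hsqf : ∀ Y : ℕ, (Y : ℝ) / 2 ≤ ((sqf Y).card : ℝ))
    (h1 : ∀ K, CountLaw 3 K) (h2 : ∀ K, FreqLaw 1 K) :
    ∃ κ : ℝ, 0 < κ ∧ ∀ B : ℕ, 1 ≤ B → ∃ K : ℕ, ∀ (E : WeierstrassCurve ℤ) (t : ℕ),
      (MeanRefined E t ↔ AlmostAllRefined κ E t) ∧ (MeanRefined E t ↔ SomeRefined B K E t) := by
  classical
  obtain ⟨C, m, hl⟩ := defect_law 1 (h1 1) (h2 1)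
  have hκ : (0 : ℝ) < 1 / (2 * ((m : ℝ) + 1)) := by positivity
  refine ⟨1 / (2 * ((m : ℝ) + 1)), hκ, fun B hB => ?_⟩
  obtain ⟨C', m', hl'⟩ := defect_law B (h1 B) (h2 B)
  refine ⟨m' + 1, fun E t => ?_⟩
  have h12 : MeanRefined E t → AlmostAllRefined (1 / (2 * ((m : ℝ) + 1))) E t := by
    intro h ε hε
    obtain ⟨n0, hn0⟩ := h (ε / 2) (by positivity)
    refine ⟨n0, fun n hn => ?_⟩
    exact abs_one_two C m _ _ (hl E t n) ε hε (hn0 n hn)
  have h23 : AlmostAllRefined (1 / (2 * ((m : ℝ) + 1))) E t → SomeRefined B (m' + 1) E t := by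
    intro h ε hε
    obtain ⟨n0, hn0⟩ := h (min ε (1 / 4)) (lt_min hε (by norm_num))
    refine ⟨n0, fun n hn => ?_⟩
    exact abs_two_three B (m' + 1) hB hsqf _ hκ (fun D x => defect (quadTwist E D) t n x) ε
      (min ε (1 / 4)) (min_le_left _ _) (min_le_right _ _) (hn0 n hn)
  have h31 : SomeRefined B (m' + 1) E t → MeanRefined E t := by
    intro h ε hε
    obtain ⟨n0, hn0⟩ := h (ε / 2) (by positivity)
    refine ⟨n0, fun n hn => ?_⟩
    exact abs_three_one B C' m' _ _ (hl' E t n) ε hε (hn0 n hn)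
  exact ⟨⟨h12, fun h => h31 (h23 h)⟩, ⟨fun h => h23 (h12 h), h31⟩⟩

end Pool.Agent.Helper70.TW
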