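import Pool.Agent.Helper70.TW.Ell
import Pool.Agent.Helper70.TW.Est
import Pool.Agent.Helper37.TL.Mom

set_option autoImplicit false

/-!
# Exceptional twists at one scale
-/

namespace Pool.Agent.Helper70.TW

open Finset Pool.Agent.Helper28.Koblitz

/-- The character sum. -/
noncomputable def SS (E : WeierstrassCurve ℤ) (t : ℕ) (D : ℤ) (x : ℕ) : ℝ :=
  ∑ p ∈ goodP E x, cf E t p * ((psi D p : ℤ) : ℝ)

theorem numPts_le {E : WeierstrassCurve ℤ} {x p : ℕ} (hp : p ∈ goodP E x) :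
    numPts E p ≤ 2 * p + 2 := by
  obtain ⟨-, hpr, h2, h3, hodd, -⟩ := goodP_mem hp
  have : Fact p.Prime := ⟨hpr⟩
  have hq2 : ringChar (ZMod p) ≠ 2 := by rwa [ZMod.ringChar_zmod_n]
  obtain ⟨r, hr⟩ := FiniteField.exists_nonsquare (F := ZMod p) hq2
  have h : ¬ IsSquare (((r.val : ℤ) : ℤ) : ZMod p) := by
    have : (((r.val : ℤ) : ℤ) : ZMod p) = r := by
      push_cast
      exact ZMod.natCast_zmod_val r
    rwa [this]
  have := numPts_quadTwist_add E h2 h3 h
  omega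

theorem ind_eq_zero {t N : ℕ} (h : N < t) : ind t N = 0 := by
  unfold ind
  rw [if_neg]
  rintro ⟨h1, h2⟩
  rw [Nat.div_eq_of_lt h] at h2
  exact Nat.not_prime_zero h2

theorem sum_ind_le (N T : ℕ) : ∑ t ∈ range T, ind t N ≤ 2 * Real.log N := by
  rcases Nat.eq_zero_or_pos N with h0 | h0
  · subst h0
    have : ∀ t ∈ range T, ind t 0 = 0 := by
      intro t _
      unfold ind
      rw [if_neg]
      rintro ⟨-, h2⟩
      rw [Nat.zero_div] at h2
      exact Nat.not_prime_zero h2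
    rw [Finset.sum_congr rfl this]
    simp
  · have h1 : ∑ t ∈ range T, ind t N = (((range T).filter (fun t => t ∣ N ∧ Nat.Prime (N / t))).card : ℝ) := by
      unfold ind
      rw [Finset.card_filter]
      push_cast
      rfl
    have h2 : ((range T).filter (fun t => t ∣ N ∧ Nat.Prime (N / t))).card ≤ N.primeFactors.card := by
      refine Finset.card_le_card_of_injOn (fun t => N / t) ?_ ?_
      · intro t ht
        rw [Finset.mem_coe, mem_filter] at ht
        rw [Finset.mem_coe, Nat.mem_primeFactors]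
        exact ⟨ht.2.2, Nat.div_dvd_of_dvd ht.2.1, h0.ne'⟩
      · intro t ht t' ht' h
        rw [Finset.mem_coe, mem_filter] at ht ht'
        simp only at h
        have e1 : N / (N / t) = t := Nat.div_div_self ht.2.1 h0.ne'
        have e2 : N / (N / t') = t' := Nat.div_div_self ht'.2.1 h0.ne'
        rw [← e1, h, e2]
    rw [h1]
    have h3 : (((range T).filter (fun t => t ∣ N ∧ Nat.Prime (N / t))).card : ℝ) ≤
        (Nat.log 2 N : ℝ) := by
      exact_mod_cast h2.trans (card_primeFactors_le N h0.ne')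
    exact h3.trans (natLog_le N)

theorem cf_sq_le (E : WeierstrassCurve ℤ) (t p : ℕ) :
    cf E t p ^ 2 ≤ ind t (numPts E p) + ind t (2 * p + 2 - numPts E p) := by
  unfold cf ind
  split_ifs <;> norm_num

theorem card_goodP_le (E : WeierstrassCurve ℤ) (x : ℕ) : (goodP E x).card ≤ x := by
  have h : goodP E x ⊆ Finset.Icc 1 x := by
    intro p hp
    obtain ⟨h1, h2, -⟩ := goodP_mem hp
    rw [mem_Icc]
    exact ⟨h2.one_lt.le, h1⟩
  have := Finset.card_le_card h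
  rwa [Nat.card_Icc, Nat.add_sub_cancel] at this

theorem sum_cf_le (E : WeierstrassCurve ℤ) (t x : ℕ) : ∑ p ∈ goodP E x, cf E t p ^ 2 ≤ x := by
  have h1 : ∀ p ∈ goodP E x, cf E t p ^ 2 ≤ 1 := by
    intro p _
    rw [← sq_abs]
    exact pow_le_one₀ (abs_nonneg _) (cf_abs E t p)
  refine (Finset.sum_le_sum h1).trans ?_
  rw [Finset.sum_const, nsmul_eq_mul, mul_one]
  exact_mod_cast card_goodP_le E x

theorem log_bound {x : ℕ} (hx : 2 ≤ x) : Real.log ((2 * x + 2 : ℕ) : ℝ) ≤ 3 * Real.log x := by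
  have h1 : (2 : ℝ) ≤ x := by exact_mod_cast hx
  have h2 : ((2 * x + 2 : ℕ) : ℝ) ≤ (x : ℝ) ^ 3 := by
    push_cast
    nlinarith [mul_self_nonneg ((x : ℝ) - 2)]
  have h3 := Real.log_le_log (by positivity) h2
  rw [Real.log_pow] at h3
  exact_mod_cast h3

/-- All `t` together. -/
theorem sum_sum_cf_le (E : WeierstrassCurve ℤ) (T : ℕ) {x : ℕ} (hx : 2 ≤ x) :
    ∑ t ∈ range T, ∑ p ∈ goodP E x, cf E t p ^ 2 ≤ 12 * x * Real.log x := by
  rw [Finset.sum_comm]
  have h1 : ∀ p ∈ goodP E x, ∑ t ∈ range T, cf E t p ^ 2 ≤ 12 * Real.log x := by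
    intro p hp
    have h2 : ∑ t ∈ range T, cf E t p ^ 2 ≤ ∑ t ∈ range T, ind t (numPts E p) +
        ∑ t ∈ range T, ind t (2 * p + 2 - numPts E p) := by
      rw [← Finset.sum_add_distrib]
      exact Finset.sum_le_sum fun t _ => cf_sq_le E t p
    have hle : ∀ N : ℕ, N ≤ 2 * p + 2 → 2 * Real.log (N : ℝ) ≤ 6 * Real.log x := by
      intro N hN
      obtain ⟨hpx, -⟩ := goodP_mem hp
      rcases Nat.eq_zero_or_pos N with h0 | h0
      · rw [h0]
        have : 0 ≤ Real.log (x : ℝ) := Real.log_natCast_nonneg x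
        simp only [Nat.cast_zero, Real.log_zero, mul_zero]
        linarith
      · have h3 : (N : ℝ) ≤ ((2 * x + 2 : ℕ) : ℝ) := by exact_mod_cast (by omega : N ≤ 2 * x + 2)
        have h4 := Real.log_le_log (by exact_mod_cast h0) h3
        have h5 := log_bound hx
        linarith
    have h3 := sum_ind_le (numPts E p) T
    have h4 := sum_ind_le (2 * p + 2 - numPts E p) T
    have h5 := hle (numPts E p) (numPts_le hp)
    have h6 := hle (2 * p + 2 - numPts E p) (Nat.sub_le _ _)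
    linarith
  refine (Finset.sum_le_sum h1).trans ?_
  rw [Finset.sum_const, nsmul_eq_mul]
  have h2 : ((goodP E x).card : ℝ) ≤ x := by exact_mod_cast card_goodP_le E x
  have h3 : 0 ≤ Real.log (x : ℝ) := Real.log_natCast_nonneg x
  nlinarith

theorem SS_eq_zero (E : WeierstrassCurve ℤ) {t x : ℕ} (D : ℤ) (ht : 2 * x + 2 < t) :
    SS E t D x = 0 := by
  unfold SS
  refine Finset.sum_eq_zero fun p hp => ?_
  obtain ⟨hpx, -⟩ := goodP_mem hp
  have h1 := numPts_le hp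
  unfold cf
  rw [ind_eq_zero (by omega), ind_eq_zero (by omega)]
  simp

open Classical in
/-- The twists with a large character sum at the scale `y`. -/
noncomputable def exc (E : WeierstrassCurve ℤ) (A Y y : ℕ) : Finset ℤ :=
  (Icc (-(Y : ℤ)) Y).filter (fun D => Squarefree D ∧ ∃ t : ℕ,
    (y : ℝ) / (2 ^ (A + 1) * (Real.log y) ^ A) ≤ |SS E t D y|)

open Classical in
/-- The twists which do not follow the mean at `x`. -/
noncomputable def badAt (E : WeierstrassCurve ℤ) (A Y x : ℕ) : Finset ℤ :=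
  (Icc (-(Y : ℤ)) Y).filter (fun D => Squarefree D ∧ ∃ t : ℕ,
    (x : ℝ) / (Real.log x) ^ A < |(koblitzCount (quadTwist E D) t x : ℝ) - meanCount E t x|)

/-- The exceptional set at the scale `y`. -/
theorem scale (A B : ℕ) : ∃ C m y1 : ℕ, ∀ (E : WeierstrassCurve ℤ) (y Y : ℕ),
    y1 ≤ y → Y ≤ y ^ B →
    ((exc E A Y y).card : ℝ) ≤ C * (Real.log y) ^ m := by
  classical
  set k : ℕ := 2 * B + 1 with hk
  obtain ⟨y1, hy1⟩ := ev_log (8 * (k : ℝ) ^ k * (2 ^ (A + 1)) ^ (2 * k)) (A * (2 * k))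
  refine ⟨48 * k ^ k * (2 ^ (A + 1)) ^ (2 * k), A * (2 * k) + 1, max y1 3, ?_⟩
  intro E y Y hy hY
  have hy3 : 3 ≤ y := le_trans (le_max_right _ _) hy
  have hy0 : (0 : ℝ) < y := by exact_mod_cast (by omega : 0 < y)
  have hy1' : (1 : ℝ) ≤ y := by exact_mod_cast (by omega : 1 ≤ y)
  have hlog : 0 < Real.log y := Real.log_pos (by exact_mod_cast (by omega : 1 < y))
  have hmain := hy1 y (le_trans (le_max_left _ _) hy)
  set W : ℝ := 2 ^ (A + 1) * (Real.log y) ^ A with hW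
  have hW0 : 0 < W := by positivity
  set V : ℝ := (y : ℝ) / W with hV
  have hV0 : 0 < V := by positivity
  have hW2 : W ^ (2 * k) = (2 ^ (A + 1)) ^ (2 * k) * (Real.log y) ^ (A * (2 * k)) := by
    rw [hW, mul_pow, ← pow_mul (Real.log (y : ℝ)) A (2 * k)]
  have hmain' : 8 * (k : ℝ) ^ k * W ^ (2 * k) ≤ y := by
    rw [hW2]; calc _ = 8 * (k : ℝ) ^ k * (2 ^ (A + 1)) ^ (2 * k) * Real.log y ^ (A * (2 * k)) := by ring
      _ ≤ y := hmain
  -- the set for one `t`
  let DD : ℕ → Finset ℤ := fun t => (Icc (-(Y : ℤ)) Y).filter (fun D => Squarefree D ∧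
    V ≤ |SS E t D y|)
  have hbound : ∀ t : ℕ, ((DD t).card : ℝ) ≤
      4 * (k : ℝ) ^ k * W ^ (2 * k) * ((∑ p ∈ goodP E y, cf E t p ^ 2) / y) := by
    intro t
    have h := Pool.Agent.Helper37.TL.count_le_sq k y Y (goodP E y)
      (fun p hp => by
        obtain ⟨h1, h2, -, -, h5, -⟩ := goodP_mem hp
        exact ⟨h2, h5, h1⟩) (cf E t) (DD t)
      (fun D hD => by
        rw [mem_filter, mem_Icc] at hD
        exact ⟨hD.2.1, by omega⟩) V hV0.le
      (fun D hD => by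
        rw [mem_filter] at hD
        exact hD.2.2)
    set Q : ℝ := ∑ p ∈ goodP E y, cf E t p ^ 2 with hQ
    have hQ0 : 0 ≤ Q := Finset.sum_nonneg fun p _ => sq_nonneg _
    have hQy : Q ≤ y := sum_cf_le E t y
    have hn : (0 : ℝ) ≤ ((DD t).card : ℝ) := Nat.cast_nonneg _
    -- the second term
    have hYy : (Y : ℝ) ^ 2 ≤ (y : ℝ) ^ (2 * B) := by
      have h1 : (Y : ℝ) ≤ (y : ℝ) ^ B := by exact_mod_cast hY
      calc (Y : ℝ) ^ 2 ≤ ((y : ℝ) ^ B) ^ 2 := pow_le_pow_left₀ (Nat.cast_nonneg _) h1 2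
        _ = (y : ℝ) ^ (2 * B) := by rw [← pow_mul]; ring_nf
    have hVk : V ^ (2 * k) * W ^ (2 * k) = (y : ℝ) ^ (2 * k) := by
      rw [← mul_pow, hV, div_mul_cancel₀ _ hW0.ne']
    have hsecond : (k : ℝ) ^ k * Q ^ k * (4 * (Y : ℝ) ^ 2) ≤ V ^ (2 * k) / 2 := by
      have h1 : (k : ℝ) ^ k * Q ^ k * (4 * (Y : ℝ) ^ 2) ≤
          (k : ℝ) ^ k * (y : ℝ) ^ k * (4 * (y : ℝ) ^ (2 * B)) := by
        refine mul_le_mul ?_ (by linarith) (by positivity) (by positivity)
        exact mul_le_mul_of_nonneg_left (pow_le_pow_left₀ hQ0 hQy k) (by positivity)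
      have h2 : (k : ℝ) ^ k * (y : ℝ) ^ k * (4 * (y : ℝ) ^ (2 * B)) * (2 * W ^ (2 * k)) ≤
          V ^ (2 * k) * W ^ (2 * k) := by
        rw [hVk]
        have e1 : (y : ℝ) ^ (2 * k) = (y : ℝ) ^ k * (y : ℝ) ^ (2 * B) * y := by
          rw [hk]; ring
        rw [e1]
        have h3 : (0 : ℝ) ≤ (y : ℝ) ^ k * (y : ℝ) ^ (2 * B) := by positivity
        calc (k : ℝ) ^ k * (y : ℝ) ^ k * (4 * (y : ℝ) ^ (2 * B)) * (2 * W ^ (2 * k)) =
            ((y : ℝ) ^ k * (y : ℝ) ^ (2 * B)) * (8 * (k : ℝ) ^ k * W ^ (2 * k)) := by ring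
          _ ≤ ((y : ℝ) ^ k * (y : ℝ) ^ (2 * B)) * y := mul_le_mul_of_nonneg_left hmain' h3
      have hW3 : 0 < W ^ (2 * k) := by positivity
      have h4 : (k : ℝ) ^ k * (y : ℝ) ^ k * (4 * (y : ℝ) ^ (2 * B)) * 2 ≤ V ^ (2 * k) := by
        have : ((k : ℝ) ^ k * (y : ℝ) ^ k * (4 * (y : ℝ) ^ (2 * B)) * 2) * W ^ (2 * k) ≤
          V ^ (2 * k) * W ^ (2 * k) := by
          calc _ = (k : ℝ) ^ k * (y : ℝ) ^ k * (4 * (y : ℝ) ^ (2 * B)) * (2 * W ^ (2 * k)) := by ring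
            _ ≤ _ := h2
        exact le_of_mul_le_mul_right this hW3
      linarith
    have hfirst : (k : ℝ) ^ k * Q ^ k * ((y : ℝ) ^ k + 1) ≤
        2 * (k : ℝ) ^ k * (Q / y) * (y : ℝ) ^ (2 * k) := by
      have h1 : (y : ℝ) ^ k + 1 ≤ 2 * (y : ℝ) ^ k := by
        have : (1 : ℝ) ≤ (y : ℝ) ^ k := one_le_pow₀ hy1'
        linarith
      have h2 : Q ^ k ≤ Q * (y : ℝ) ^ (2 * B) := by
        rw [hk, pow_succ, mul_comm]
        exact mul_le_mul_of_nonneg_left (pow_le_pow_left₀ hQ0 hQy _) hQ0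
      calc (k : ℝ) ^ k * Q ^ k * ((y : ℝ) ^ k + 1) ≤
          (k : ℝ) ^ k * (Q * (y : ℝ) ^ (2 * B)) * (2 * (y : ℝ) ^ k) := by
            refine mul_le_mul ?_ h1 (by positivity) (by positivity)
            exact mul_le_mul_of_nonneg_left h2 (by positivity)
        _ = 2 * (k : ℝ) ^ k * (Q / y) * (y : ℝ) ^ (2 * k) := by
            have e1 : (y : ℝ) ^ (2 * k) = (y : ℝ) ^ k * (y : ℝ) ^ (2 * B) * y := by
              rw [hk]; ring
            rw [e1]
            field_simp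
    have h3 : ((DD t).card : ℝ) * V ^ (2 * k) ≤
        2 * (k : ℝ) ^ k * (Q / y) * (y : ℝ) ^ (2 * k) + ((DD t).card : ℝ) * (V ^ (2 * k) / 2) := by
      refine h.trans ?_
      have : (k : ℝ) ^ k * Q ^ k * ((y : ℝ) ^ k + 1 + 4 * (Y : ℝ) ^ 2 * ((DD t).card : ℝ)) =
          (k : ℝ) ^ k * Q ^ k * ((y : ℝ) ^ k + 1) +
          ((DD t).card : ℝ) * ((k : ℝ) ^ k * Q ^ k * (4 * (Y : ℝ) ^ 2)) := by ring
      rw [this]
      exact add_le_add hfirst (mul_le_mul_of_nonneg_left hsecond hn)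
    have hVpos : 0 < V ^ (2 * k) := by positivity
    have h4 : ((DD t).card : ℝ) * V ^ (2 * k) ≤ 4 * (k : ℝ) ^ k * (Q / y) * (y : ℝ) ^ (2 * k) := by
      linarith
    rw [← hVk] at h4
    have h5 : ((DD t).card : ℝ) * V ^ (2 * k) ≤
        (4 * (k : ℝ) ^ k * W ^ (2 * k) * (Q / y)) * V ^ (2 * k) := by
      calc _ ≤ _ := h4
        _ = _ := by ring
    exact le_of_mul_le_mul_right h5 hVpos
  -- the union over `t`
  have hsub : exc E A Y y ⊆ (range (2 * y + 3)).biUnion DD := by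
    intro D hD
    unfold exc at hD
    rw [mem_filter] at hD
    obtain ⟨h1, h2, t, ht⟩ := hD
    rw [mem_biUnion]
    refine ⟨t, ?_, ?_⟩
    · rw [mem_range]
      by_contra hcon
      rw [SS_eq_zero E D (by omega : 2 * y + 2 < t), abs_zero] at ht
      linarith
    · rw [mem_filter]
      exact ⟨h1, h2, ht⟩
  have hcard : ((exc E A Y y).card : ℝ) ≤ ∑ t ∈ range (2 * y + 3), ((DD t).card : ℝ) := by
    have h1 := (Finset.card_le_card hsub).trans Finset.card_biUnion_le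
    exact_mod_cast h1
  refine hcard.trans ((Finset.sum_le_sum fun t _ => hbound t).trans ?_)
  rw [← Finset.mul_sum, ← Finset.sum_div]
  have h1 := sum_sum_cf_le E (2 * y + 3) (by omega : 2 ≤ y)
  have h2 : (∑ t ∈ range (2 * y + 3), ∑ p ∈ goodP E y, cf E t p ^ 2) / y ≤ 12 * Real.log y := by
    rw [div_le_iff₀ hy0]
    linarith
  have h3 : 4 * (k : ℝ) ^ k * W ^ (2 * k) *
      ((∑ t ∈ range (2 * y + 3), ∑ p ∈ goodP E y, cf E t p ^ 2) / y) ≤
      4 * (k : ℝ) ^ k * W ^ (2 * k) * (12 * Real.log y) :=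
    mul_le_mul_of_nonneg_left h2 (by positivity)
  refine h3.trans (le_of_eq ?_)
  rw [hW2]
  push_cast
  ring

end Pool.Agent.Helper70.TW
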