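import Pool.Agent.Helper80.TL.Final

set_option autoImplicit false

/-!
# The refined Koblitz conjecture in families of quadratic twists

For an elliptic curve `E` over `ℚ` and a square-free `D` let `E^D` be the quadratic twist,
`koblitzCount (quadTwist E D) t x` the number of primes `p ≤ x`, `p ∤ 6 D Δ`, such that
`|E^D(𝔽_p)|/t` is a prime, and `meanCount E t x` the mean of the numbers of the primes `p ≤ x`,
`p ∤ 6 Δ`, such that `|E(𝔽_p)|/t`, respectively `(2p + 2 - |E(𝔽_p)|)/t`, is a prime.

The proof. For `p ∤ 6 D Δ`, `|E^D(𝔽_p)|` is `|E(𝔽_p)|` or `2 p + 2 - |E(𝔽_p)|` as the Legendre symbol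
of `D` is `1` or `-1`, so the count for `E^D` minus the mean is half a sum of `c_p (D / p)` with
`|c_p| ≤ 1` over the primes `p ≤ x`, up to the prime divisors of `D`. If `x` is small compared with
`Y`, the moments of order `2 k` of these sums over `|D| ≤ Y` are bounded by the periodicity of
`D ↦ (D / n)`. If a fixed power of `x` exceeds `Y`, the `k`-th power of the sum is a sum over
`n ≤ x ^ k`, and the inequality of Bombieri and Selberg for the characters `n ↦ (D / n)`, `D`
square-free, `|D| ≤ Y`, leaves at most `(log x)^m` exceptions. The maximum over `x` is taken over a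
grid of `L^m` points. The same applies to the frequencies of `|E^D(𝔽_p)| ∈ t (ℤ/M)ˣ`, and (B) follows
from the two laws: what holds for the mean at `x` holds for all but few twists, and conversely.
-/

namespace Pool.Agent.Helper70.TW.Old

open Finset Filter Pool.Agent.Helper28.Koblitz Pool.Agent.Helper70.TW Pool.Agent.Helper80.TL

/-- **The twist law.** (A) Let `A`, `K` be natural numbers. There are `C`, `m` such that for every
elliptic curve `E` (integral Weierstrass equation) and all `x₀ ≥ 2`, `Y, L ≥ 1`, all but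
`C (Y / x₀ ^ K + L ^ m)` of the square-free integers `D`, `|D| ≤ Y`, satisfy
`|π_{E^D,t}(x) - Π_{E,t}(x)| ≤ x / (log x)^A` for **all** `t` and **all** `x₀ ≤ x ≤ e^L`.

(B) For every `A ≥ 1` there are `C`, `m` and for every `B ≥ 1` there is `K` such that for every `E`,
`t` the following are equivalent: (i) the refined Koblitz conjecture in the mean of the two twists;
(ii) the refined Koblitz conjecture, each twist `E^D` with its own constant, for all
`x₀ ≤ x ≤ e^L` and all but `C (Y / x₀ ^ A + L ^ m)` of the square-free `|D| ≤ Y`; (iii) the same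
for at least `(log x) ^ K` of the square-free `|D| ≤ x ^ B`, for all large `x`.

(C) If the densities `δ(m)` and the constant `C_{E,t}` exist, the refined Koblitz conjecture for
`(E, t)` is its form at finite levels `n`, which is used in (B). -/
theorem twist_law :
    (∀ A K : ℕ, ∃ (C : ℝ) (m : ℕ), ∀ (E : WeierstrassCurve ℤ) (x0 Y L : ℕ),
      2 ≤ x0 → 1 ≤ Y → 1 ≤ L →
      ((badUpTo E A x0 Y L).card : ℝ) ≤ C * ((Y : ℝ) / (x0 : ℝ) ^ K + (L : ℝ) ^ m)) ∧
    (∀ A : ℕ, 1 ≤ A → ∃ C m : ℕ, ∀ B : ℕ, 1 ≤ B → ∃ K : ℕ, ∀ (E : WeierstrassCurve ℤ) (t : ℕ),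
      (MeanRefined E t ↔ SmallExceptions A C m E t) ∧ (MeanRefined E t ↔ SomeRefined B K E t)) ∧
    (∀ (E : WeierstrassCurve ℤ) (t : ℕ) (δ : ℕ → ℝ) (C : ℝ),
      (∀ m : ℕ, 0 < m → Tendsto (fun x : ℕ => unitFreq E t m x) atTop (nhds (δ m))) →
      Tendsto (fun n : ℕ => δ (Nat.factorial n) /
        ∏ ℓ ∈ (Nat.factorial n).primeFactors, (1 - 1 / (ℓ : ℝ))) atTop (nhds C) →
      (Tendsto (fun x : ℕ => (koblitzCount E t x : ℝ) / ((x : ℝ) / (Real.log x) ^ 2)) atTop
        (nhds C) ↔ FiniteLevel E t)) :=
  ⟨count_law, zero_one, finiteLevel_iff⟩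

end Pool.Agent.Helper70.TW.Old
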